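import Mathlib
import Pool.Agent.Q1.M4.Geo7

set_option autoImplicit false
open Complex Metric Set Topology Filter

/-! Module M7 of Q1, J12: conformal charts of a polygon and the cube of the derivative of the limit
of the primitive of the parafermion. -/

namespace Pool.Agent.H29.M7

open Pool.Agent.Q1.M4

/-- `ψ` is a holomorphic map of the polygon into the upper half plane with pole at the vertex `0`
(mark `b`), real smaller than `W` on the free arc and real greater than `W` on the wired arc (so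
`W` is its value at the vertex `m`, the mark `a`). -/
structure Chart (P : PType) (x y : ℤ → ℝ) (ψ : ℂ → ℂ) (W : ℝ) : Prop where
  holo : DifferentiableOn ℂ ψ (Om P.Q x y)
  pos : ∀ z ∈ Om P.Q x y, 0 < (ψ z).im
  free : ∀ n < P.m, ∀ t ∈ Icc (0 : ℝ) 1, P.sidePt x y n t ∉ P.marks x y → ∃ r : ℝ, r < W ∧
    Tendsto ψ (𝓝[Om P.Q x y] (P.sidePt x y n t)) (𝓝 (r : ℂ))
  wired : ∀ n, P.m ≤ n → n < P.N → ∀ t ∈ Icc (0 : ℝ) 1, P.sidePt x y n t ∉ P.marks x y →
    ∃ r : ℝ, W < r ∧ Tendsto ψ (𝓝[Om P.Q x y] (P.sidePt x y n t)) (𝓝 (r : ℂ))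
  pole : Tendsto (fun z => ‖ψ z‖) (𝓝[Om P.Q x y] (pt x y (P.vert 0))) atTop

variable {P : PType} {x y : ℤ → ℝ}

/-! ### The two arcs -/

lemma arc_free (hx : StrictMono x) (hy : StrictMono y) {z : ℂ} (hz : z ∈ P.arc x y 0 P.m) :
    z ∈ frontier (Om P.Q x y) ∧ z ∉ P.marks x y ∧
      ∃ n < P.m, ∃ t ∈ Icc (0 : ℝ) 1, z = P.sidePt x y n t := by
  have hmN := P.hmN
  have hm0 := P.hm0
  unfold PType.arc at hz
  simp only [mem_iUnion, exists_prop] at hz
  obtain ⟨n, ⟨-, hn⟩, t, ⟨ht, h0, h1⟩, rfl⟩ := hz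
  refine ⟨P.sidePt_mem_frontier hx hy n ht, ?_, n, hn, t, ht, rfl⟩
  apply P.not_mem_marks hx hy (by omega) ht
  · rintro rfl
    refine ⟨fun h => ?_, by omega⟩
    exact lt_irrefl _ (h0 h)
  · rintro rfl
    refine ⟨by omega, fun h => ?_⟩
    exact lt_irrefl _ (h1 h)

lemma arc_wired (hx : StrictMono x) (hy : StrictMono y) {z : ℂ} (hz : z ∈ P.arc x y P.m P.N) :
    z ∈ frontier (Om P.Q x y) ∧ z ∉ P.marks x y ∧
      ∃ n, P.m ≤ n ∧ n < P.N ∧ ∃ t ∈ Icc (0 : ℝ) 1, z = P.sidePt x y n t := by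
  have hmN := P.hmN
  have hm0 := P.hm0
  unfold PType.arc at hz
  simp only [mem_iUnion, exists_prop] at hz
  obtain ⟨n, ⟨hn', hn⟩, t, ⟨ht, h0, h1⟩, rfl⟩ := hz
  refine ⟨P.sidePt_mem_frontier hx hy n ht, ?_, n, hn', hn, t, ht, rfl⟩
  apply P.not_mem_marks hx hy (by omega) ht
  · rintro rfl
    refine ⟨by omega, fun h => ?_⟩
    exact lt_irrefl _ (h0 h)
  · rintro rfl
    refine ⟨fun h => ?_, by omega⟩
    exact lt_irrefl _ (h1 h)

lemma arcs_cover (hx : StrictMono x) (hy : StrictMono y) :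
    frontier (Om P.Q x y) ⊆ P.arc x y 0 P.m ∪ P.arc x y P.m P.N ∪ P.marks x y := by
  have hmN := P.hmN
  have hm0 := P.hm0
  intro z hz
  obtain ⟨n, hn, t, ht, rfl⟩ := P.frontier_cover hx hy hz
  by_cases hmk : P.sidePt x y n t ∈ (P.marks x y : Set ℂ)
  · exact Or.inr hmk
  · left
    have k0 : n = 0 → 0 < t := by
      rintro rfl
      refine lt_of_le_of_ne ht.1 ?_
      rintro rfl
      apply hmk
      rw [P.sidePt_zero]
      simp [PType.marks]
    have km : n = P.m → 0 < t := by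
      intro h
      refine lt_of_le_of_ne ht.1 ?_
      rintro rfl
      apply hmk
      rw [P.sidePt_zero, h]
      simp [PType.marks]
    have k1 : n + 1 = P.m → t < 1 := by
      intro h
      refine lt_of_le_of_ne ht.2 ?_
      rintro rfl
      apply hmk
      rw [P.sidePt_one, h]
      simp [PType.marks]
    have kN : n + 1 = P.N → t < 1 := by
      intro h
      refine lt_of_le_of_ne ht.2 ?_
      rintro rfl
      apply hmk
      rw [P.sidePt_one, h, P.vert_N]
      simp [PType.marks]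
    unfold PType.arc
    rcases lt_or_ge n P.m with h | h
    · left
      simp only [mem_iUnion, exists_prop]
      exact ⟨n, ⟨Nat.zero_le _, h⟩, t, ⟨ht, k0, k1⟩, rfl⟩
    · right
      simp only [mem_iUnion, exists_prop]
      exact ⟨n, ⟨h, hn⟩, t, ⟨ht, km, kN⟩, rfl⟩

lemma marks_not_mem (hx : StrictMono x) (hy : StrictMono y) :
    ∀ a ∈ P.marks x y, a ∉ Om P.Q x y := by
  have hfr : ∀ n < P.N, pt x y (P.vert n) ∉ Om P.Q x y := by
    intro n hn
    have := (P.geoHyp hx hy).verts _ (Finset.mem_image.2 ⟨n, Finset.mem_range.2 hn, rfl⟩)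
    rw [(isOpen_Om _ _ _).frontier_eq] at this
    exact this.2
  intro a ha
  rcases Finset.mem_insert.1 ha with rfl | ha
  · exact hfr 0 (P.hm0.trans P.hmN)
  · rw [Finset.mem_singleton.1 ha]
    exact hfr P.m P.hmN

/-! ### The argument of `ψ - W` -/

lemma arg_tendsto_zero {F : Filter ℂ} {ψ : ℂ → ℂ} {W r : ℝ} (hr : W < r)
    (h : Tendsto ψ F (𝓝 (r : ℂ))) : Tendsto (fun z => (log (ψ z - W)).im) F (𝓝 0) := by
  have h1 : Tendsto (fun z => ψ z - W) F (𝓝 ((r - W : ℝ) : ℂ)) := by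
    push_cast
    exact h.sub_const _
  have h2 : ContinuousAt (fun w : ℂ => (log w).im) ((r - W : ℝ) : ℂ) := by
    apply Complex.continuous_im.continuousAt.comp
    apply continuousAt_clog
    rw [mem_slitPlane_iff]
    left
    rw [ofReal_re]; linarith
  have h3 := h2.tendsto.comp h1
  have e : (log ((r - W : ℝ) : ℂ)).im = 0 := by
    rw [log_im, arg_ofReal_of_nonneg (by linarith)]
  rw [e] at h3
  exact h3

lemma arg_tendsto_pi {F : Filter ℂ} {ψ : ℂ → ℂ} {W r : ℝ} (hr : r < W)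
    (h : Tendsto ψ F (𝓝 (r : ℂ))) (hp : ∀ᶠ z in F, 0 < (ψ z).im) :
    Tendsto (fun z => (log (ψ z - W)).im) F (𝓝 Real.pi) := by
  have h1 : Tendsto (fun z => ψ z - W) F (𝓝[{w : ℂ | 0 ≤ w.im}] ((r - W : ℝ) : ℂ)) := by
    refine tendsto_nhdsWithin_of_tendsto_nhds_of_eventually_within _ ?_ ?_
    · push_cast
      exact h.sub_const _
    · filter_upwards [hp] with z hz
      simp only [sub_im, ofReal_im, sub_zero]
      exact hz.le
  have h2 := (continuousWithinAt_arg_of_re_neg_of_im_zero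
    (z := ((r - W : ℝ) : ℂ)) (by rw [ofReal_re]; linarith) (by simp)).tendsto.comp h1
  have e : arg ((r - W : ℝ) : ℂ) = Real.pi := arg_ofReal_of_neg (by linarith)
  rw [e] at h2
  simpa [Function.comp_def, log_im] using h2

/-- **The cube of the derivative of the limit.** -/
theorem Chart.cube {ψ : ℂ → ℂ} {W : ℝ} (C : Chart P x y ψ W) (hx : StrictMono x)
    (hy : StrictMono y) {h : ℂ → ℂ} (H : LimitData P x y h)
    (hne : ∃ z ∈ Om P.Q x y, deriv h z ≠ 0) :
    ∃ μ : ℝ, μ ≠ 0 ∧ ∀ z ∈ Om P.Q x y, deriv h z ^ 3 = μ * (deriv ψ z / (ψ z - W)) := by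
  have hG := P.geoHyp hx hy
  obtain ⟨κ, hD⟩ := LimitData.data hx hy hG H H
  have D := hD h (Or.inl rfl)
  have hopen := isOpen_Om P.Q x y
  have e1 : DifferentiableOn ℂ (deriv h) (Om P.Q x y) := H.holo.deriv hopen
  obtain ⟨Φ, hΦ⟩ := P.good.exists_primitive hx hy
    (f := fun z => (1 : ℂ) * (deriv h z ^ 2 * deriv h z)) (((e1.pow 2).mul e1).const_mul 1)
  obtain ⟨M, hM⟩ := D.bounded_im hΦ
  obtain ⟨l, hl⟩ := D.side_const hΦ (P.arc_preconnected 0 P.m) (fun z hz =>
    ⟨(arc_free hx hy hz).1, (arc_free hx hy hz).2.1⟩)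
  obtain ⟨r, hr⟩ := D.side_const hΦ (P.arc_preconnected P.m P.N) (fun z hz =>
    ⟨(arc_wired hx hy hz).1, (arc_wired hx hy hz).2.1⟩)
  -- the logarithm
  have hsl : ∀ z ∈ Om P.Q x y, ψ z - W ∈ slitPlane := by
    intro z hz
    rw [mem_slitPlane_iff]
    right
    have := C.pos z hz
    simp only [sub_im, ofReal_im, sub_zero]
    exact this.ne'
  have hψ : ∀ z ∈ Om P.Q x y, HasDerivAt ψ (deriv ψ z) z := fun z hz =>
    (C.holo.differentiableAt (hopen.mem_nhds hz)).hasDerivAt
  have hlog : ∀ z ∈ Om P.Q x y, HasDerivAt (fun z => log (ψ z - W)) (deriv ψ z / (ψ z - W)) z :=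
    fun z hz => ((hψ z hz).sub_const _).clog (hsl z hz)
  set k : ℝ := (l - r) / Real.pi with hk
  have hkπ : k * Real.pi = l - r := by
    rw [hk]; exact div_mul_cancel₀ _ Real.pi_pos.ne'
  have hd : ∀ z ∈ Om P.Q x y, HasDerivAt (fun z => Φ z - k * log (ψ z - W))
      ((1 : ℂ) * (deriv h z ^ 2 * deriv h z) - k * (deriv ψ z / (ψ z - W))) z := fun z hz =>
    (hΦ z hz).sub ((hlog z hz).const_mul _)
  have him : ∀ z ∈ Om P.Q x y, ((fun z => Φ z - k * log (ψ z - W)) z).im = r := by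
    refine _root_.Q1.im_const hopen hG.conn (isBounded_Om _ _ _) (P.marks x y)
      (marks_not_mem hx hy)
      (fun z hz => (hd z hz).differentiableAt.differentiableWithinAt)
      (M := M + |k| * Real.pi) ?_ ?_
    · intro z hz
      have e1 : ((fun z => Φ z - k * log (ψ z - W)) z).im =
        (Φ z).im - k * (log (ψ z - W)).im := by simp
      rw [e1]
      calc |(Φ z).im - k * (log (ψ z - W)).im| ≤ |(Φ z).im| + |k * (log (ψ z - W)).im| :=
            abs_sub _ _
        _ ≤ M + |k| * Real.pi := by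
            rw [abs_mul]
            refine add_le_add (hM z hz) (mul_le_mul_of_nonneg_left ?_ (abs_nonneg k))
            rw [log_im]
            exact abs_arg_le_pi _
    · intro w hw hwZ
      have e1 : (fun z => ((fun z => Φ z - k * log (ψ z - W)) z).im)
          = fun z => (Φ z).im - k * (log (ψ z - W)).im := by ext z; simp
      rw [e1]
      rcases arcs_cover hx hy hw with (hw' | hw') | hw'
      · obtain ⟨-, hm, n, hn, t, ht, rfl⟩ := arc_free hx hy hw'
        obtain ⟨r', hr', hlim⟩ := C.free n hn t ht hm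
        have h3 := arg_tendsto_pi hr' hlim (eventually_mem_nhdsWithin.mono fun z hz => C.pos z hz)
        have := (hl _ hw').sub (h3.const_mul k)
        rw [show l - k * Real.pi = r by rw [hkπ]; ring] at this
        exact this
      · obtain ⟨-, hm, n, hn, hn', t, ht, rfl⟩ := arc_wired hx hy hw'
        obtain ⟨r', hr', hlim⟩ := C.wired n hn hn' t ht hm
        have := (hr _ hw').sub ((arg_tendsto_zero hr' hlim).const_mul k)
        rw [mul_zero, sub_zero] at this
        exact this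
      · exact absurd hw' hwZ
  have hz0 := _root_.Q1.deriv_eq_zero_of_im_const hopen hd him
  have hfin : ∀ z ∈ Om P.Q x y, deriv h z ^ 3 = k * (deriv ψ z / (ψ z - W)) := by
    intro z hz
    have := hz0 z hz
    linear_combination this
  refine ⟨k, ?_, hfin⟩
  intro h0
  obtain ⟨z, hz, hz'⟩ := hne
  apply hz'
  have := hfin z hz
  rw [h0, ofReal_zero, zero_mul] at this
  exact pow_eq_zero_iff (by norm_num) |>.1 this

end Pool.Agent.H29.M7
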