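import Mathlib
import Pool.Agent.Q1.M4.Geo7
import Pool.Agent.H83.Lo.Flat

set_option autoImplicit false
open Complex Metric Set Topology Filter

/-! Module M7 of Q1, J12: local analysis at a flat boundary vertex. -/

namespace Pool.Agent.H29.M7

open Pool.Agent.Q1.M4
open Pool.Agent.H83.Lo (UH extMap mem_UH)

/-! ### The half disc at a flat vertex -/

/-- The open upper half plane in polar coordinates. -/
lemma exp_im_pos {s φ θ : ℝ} (hs : 0 < s) (hφ : φ ∈ Ioo θ (θ + Real.pi)) :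
    0 < (((s : ℂ) * exp (φ * I)) / exp (θ * I)).im := by
  have e : ((s : ℂ) * exp (φ * I)) / exp (θ * I) = s * exp (((φ - θ : ℝ) : ℂ) * I) := by
    rw [mul_div_assoc, ← Complex.exp_sub]
    congr 2
    push_cast
    ring
  rw [e, im_ofReal_mul, exp_ofReal_mul_I_im]
  exact mul_pos hs (Real.sin_pos_of_pos_of_lt_pi (by linarith [hφ.1]) (by linarith [hφ.2]))

/-- A point of the upper half plane in polar coordinates. -/
lemma exists_polar {w : ℂ} {θ : ℝ} (hw : 0 < (w / exp (θ * I)).im) :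
    ∃ φ ∈ Ioo θ (θ + Real.pi), w = (‖w‖ : ℝ) * exp (φ * I) := by
  set v := w / exp (θ * I) with hv
  have hexp : exp (θ * I) ≠ 0 := exp_ne_zero _
  have h1 : 0 < arg v := by
    rcases (arg_nonneg_iff.2 hw.le).lt_or_eq with h | h
    · exact h
    · exfalso
      have := (arg_eq_zero_iff.1 h.symm).2
      linarith
  have h2 : arg v < Real.pi := by
    rcases (arg_le_pi v).lt_or_eq with h | h
    · exact h
    · exfalso
      have := (arg_eq_pi_iff.1 h).2
      linarith
  refine ⟨θ + arg v, ⟨by linarith, by linarith⟩, ?_⟩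
  have h3 : (‖v‖ : ℂ) * exp (arg v * I) = v := norm_mul_exp_arg_mul_I v
  have h4 : ‖v‖ = ‖w‖ := by
    rw [hv, norm_div, norm_exp_ofReal_mul_I, div_one]
  have h5 : w = v * exp (θ * I) := by rw [hv]; field_simp
  rw [h4] at h3
  calc w = v * exp (θ * I) := h5
    _ = (‖w‖ : ℂ) * exp (arg v * I) * exp (θ * I) := by rw [h3]
    _ = (‖w‖ : ℂ) * exp (((θ + arg v : ℝ) : ℂ) * I) := by
        rw [mul_assoc, ← Complex.exp_add]
        congr 2
        push_cast
        ring

variable {P : PType} {x y : ℤ → ℝ}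

/-- The half disc at a flat vertex. -/
theorem half_disc_flat (hx : StrictMono x) (hy : StrictMono y) {n : ℕ}
    (h : (P.side (n + 1)).2 = (P.side n).2) : ∃ ρ : ℝ, 0 < ρ ∧
    (∀ z ∈ ball (pt x y (P.vert (n + 1))) ρ, z ∈ Om P.Q x y ↔
      0 < ((z - pt x y (P.vert (n + 1))) / udir (P.side n).2).im) ∧
    ∀ s : ℝ, |s| < ρ → (s = 0 ∨
      (0 < s ∧ pt x y (P.vert (n + 1)) + s * udir (P.side n).2 =
        P.sidePt x y (n + 1) (s / len x y (P.side (n + 1))) ∧
        s / len x y (P.side (n + 1)) ∈ Ioo (0 : ℝ) 1) ∨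
      (s < 0 ∧ pt x y (P.vert (n + 1)) + s * udir (P.side n).2 =
        P.sidePt x y n (1 - -s / len x y (P.side n)) ∧
        1 - -s / len x y (P.side n) ∈ Ioo (0 : ℝ) 1)) := by
  obtain ⟨r, hr, h1, h2⟩ := P.sector hx hy n
  rw [h] at h1 h2
  set p := pt x y (P.vert (n + 1)) with hp
  set k := (P.side n).2 with hk
  refine ⟨r, hr, ?_, ?_⟩
  · intro z hz
    rw [mem_ball] at hz
    rw [udir_eq_exp]
    constructor
    · intro hzO
      obtain ⟨φ, hφ, e⟩ := h2 z hzO hz
      have hne : 0 < dist z p := by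
        rw [dist_pos]
        rintro rfl
        have := P.sidePt_mem_frontier hx hy (n + 1) (t := 0) (by simp)
        rw [P.sidePt_zero, (isOpen_Om _ _ _).frontier_eq] at this
        exact this.2 hzO
      have e2 : z - p = (dist z p : ℝ) * exp (φ * I) := by rw [sub_eq_iff_eq_add']; exact e
      rw [e2]
      exact exp_im_pos hne hφ
    · intro him
      obtain ⟨φ, hφ, e⟩ := exists_polar him
      have hpos : 0 < ‖z - p‖ := by
        rw [norm_pos_iff]
        intro h0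
        rw [h0, zero_div] at him
        simp at him
      have := (h1 ‖z - p‖ ⟨hpos, by rwa [← dist_eq_norm]⟩).1 φ hφ
      rw [← e, add_sub_cancel] at this
      exact this
  · intro s hs
    rcases lt_trichotomy s 0 with h0 | h0 | h0
    · right; right
      rw [abs_of_neg h0] at hs
      have := (h1 (-s) ⟨by linarith, hs⟩).2.2.2
      have hL := side_len_pos hx hy (P.side n)
      refine ⟨h0, ?_, ?_, ?_⟩
      · rw [← this.1, udir_eq_exp]
        have e : ((k : ℝ) * (Real.pi / 2) + Real.pi : ℝ) * I =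
            ((k : ℝ) * (Real.pi / 2) : ℝ) * I + Real.pi * I := by push_cast; ring
        rw [e, Complex.exp_add, exp_pi_mul_I]
        push_cast
        ring
      · linarith [this.2]
      · have : 0 < -s / len x y (P.side n) := div_pos (by linarith) hL
        linarith
    · exact Or.inl h0
    · right; left
      rw [abs_of_pos h0] at hs
      have := (h1 s ⟨h0, hs⟩).2
      have hL := side_len_pos hx hy (P.side (n + 1))
      refine ⟨h0, ?_, div_pos h0 hL, this.2.1⟩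
      rw [← this.1, udir_eq_exp]

/-! ### Extension across a flat piece -/

open scoped ComplexConjugate in
/-- Extension across the flat piece, in the coordinate `w = (z - p) / e`. -/
theorem local_ext {Ω : Set ℂ} {p e : ℂ} (he : ‖e‖ = 1) {ρ : ℝ}
    (hΩ : ∀ z ∈ ball p ρ, z ∈ Ω ↔ 0 < ((z - p) / e).im)
    {f : ℂ → ℂ} (hd : DifferentiableOn ℂ f Ω) (hpos : ∀ z ∈ Ω, 0 < (f z).im)
    (hlim : ∀ s : ℝ, |s| < ρ → Tendsto (fun z => (f z).im) (𝓝[Ω] (p + s * e)) (𝓝 0)) :
    ∃ E : ℂ → ℂ, DifferentiableOn ℂ E (ball 0 ρ) ∧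
      (∀ w ∈ ball (0 : ℂ) ρ, 0 < w.im → p + e * w ∈ Ω ∧ E w = f (p + e * w)) ∧
      (∀ s : ℝ, |s| < ρ → (E s).im = 0 ∧ ∃ a : ℝ, 0 < a ∧ HasDerivAt E a s) := by
  have he0 : e ≠ 0 := by
    rintro rfl
    simp at he
  have hmem : ∀ w ∈ ball (0 : ℂ) ρ, p + e * w ∈ ball p ρ := by
    intro w hw
    rw [mem_ball_zero_iff] at hw
    rw [mem_ball, dist_eq_norm, add_sub_cancel_left, norm_mul, he, one_mul]
    exact hw
  have hin : ∀ w ∈ ball (0 : ℂ) ρ, 0 < w.im → p + e * w ∈ Ω := by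
    intro w hw hi
    rw [hΩ _ (hmem w hw), add_sub_cancel_left, mul_div_cancel_left₀ _ he0]
    exact hi
  set g : ℂ → ℂ := fun w => f (p + e * w) with hg
  have z0 : ((0 : ℝ) : ℂ) = 0 := ofReal_zero
  obtain ⟨h1, h2, h3⟩ := H83.Lo.flat (x := 0) (ρ := ρ) (h := g) (by
      rw [z0]
      refine hd.comp (t := Ω) (by fun_prop) ?_
      intro w hw
      exact hin w hw.1 hw.2) (by
      rw [z0]
      intro w hw
      exact hpos _ (hin w hw.1 hw.2)) (by
      rw [z0]
      intro q hq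
      have hq' : |q| < ρ := by
        rw [mem_ball_zero_iff, norm_real, Real.norm_eq_abs] at hq
        exact hq
      have h4 : Tendsto (fun w : ℂ => p + e * w) (𝓝[UH] (q : ℂ)) (𝓝[Ω] (p + q * e)) := by
        refine tendsto_nhdsWithin_of_tendsto_nhds_of_eventually_within _ ?_ ?_
        · have : Continuous fun w : ℂ => p + e * w := by fun_prop
          have h5 := this.tendsto (q : ℂ)
          rw [mul_comm e (q : ℂ)] at h5
          exact h5.mono_left nhdsWithin_le_nhds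
        · have h6 : ∀ᶠ w in 𝓝[UH] (q : ℂ), w ∈ ball (0 : ℂ) ρ :=
            mem_nhdsWithin_of_mem_nhds (isOpen_ball.mem_nhds hq)
          filter_upwards [h6, self_mem_nhdsWithin] with w hw hw'
          exact hin w hw hw'
      exact (hlim q hq').comp h4)
  rw [z0] at h1 h2 h3
  refine ⟨extMap g, h1, fun w hw hi => ⟨hin w hw hi, H83.Lo.extMap_upper hi⟩, ?_⟩
  intro s hs
  have hsb : (s : ℂ) ∈ ball (0 : ℂ) ρ := by
    rw [mem_ball_zero_iff, norm_real, Real.norm_eq_abs]; exact hs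
  refine ⟨h3 _ hsb (ofReal_im s), ?_⟩
  have hsub : ball (s : ℂ) (ρ - |s|) ⊆ ball (0 : ℂ) ρ := by
    intro w hw
    rw [mem_ball, dist_eq_norm] at hw
    rw [mem_ball_zero_iff]
    calc ‖w‖ = ‖(w - s) + s‖ := by rw [sub_add_cancel]
      _ ≤ ‖w - s‖ + ‖(s : ℂ)‖ := norm_add_le _ _
      _ < ρ - |s| + |s| := by
          rw [norm_real, Real.norm_eq_abs]; linarith
      _ = ρ := by ring
  obtain ⟨a, ha, hda⟩ := H83.Lo.deriv_pos_of_real (x := s) (ρ := ρ - |s|) (φ := extMap g)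
    (by linarith) (h1.mono hsub) (fun z hz => h2 z (hsub hz)) (by
      intro z hz hi
      rw [H83.Lo.extMap_upper hi]
      exact hpos _ (hin z (hsub hz) hi))
  refine ⟨a, ha, ?_⟩
  rw [← hda]
  exact (h1.differentiableAt (isOpen_ball.mem_nhds hsb)).hasDerivAt

/-! ### Cube roots -/

/-- A function whose derivative is a cube root of a continuous nonvanishing function. -/
theorem cube_local {ρ : ℝ} (hρ : 0 < ρ) {g F : ℂ → ℂ}
    (hgc : ContinuousOn g (ball 0 ρ ∩ {w | 0 ≤ w.im}))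
    (hgd : DifferentiableOn ℂ g (ball 0 ρ ∩ UH)) (hF : DifferentiableOn ℂ F (ball 0 ρ))
    (h : ∀ w ∈ ball (0 : ℂ) ρ ∩ UH, deriv g w ^ 3 = F w) (h0 : F 0 ≠ 0) :
    ∃ c : ℂ, c ^ 3 = F 0 ∧ ∀ ε > 0, ∃ δ > 0, ∀ w : ℂ, ‖w‖ < δ → 0 ≤ w.im →
      ‖g w - g 0 - c * w‖ ≤ ε * ‖w‖ := by
  have h0b : (0 : ℂ) ∈ ball (0 : ℂ) ρ := mem_ball_self hρ
  have hFc : ContinuousAt F 0 := (hF.differentiableAt (isOpen_ball.mem_nhds h0b)).continuousAt
  -- a small radius
  obtain ⟨ρ₁, hρ₁, hle, hsl⟩ : ∃ ρ₁ : ℝ, 0 < ρ₁ ∧ ρ₁ ≤ ρ ∧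
      ∀ w ∈ ball (0 : ℂ) ρ₁, F w / F 0 ∈ slitPlane := by
    have h1 : ContinuousAt (fun w => F w / F 0) 0 := hFc.div_const _
    have h2 : ∀ᶠ w in 𝓝 (0 : ℂ), F w / F 0 ∈ slitPlane := by
      apply h1.eventually_mem
      simp only [div_self h0]
      exact isOpen_slitPlane.mem_nhds one_mem_slitPlane
    obtain ⟨ε, hε, h3⟩ := Metric.eventually_nhds_iff_ball.1 h2
    exact ⟨min ε ρ, lt_min hε hρ, min_le_right _ _,
      fun w hw => h3 w (ball_subset_ball (min_le_left _ _) hw)⟩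
  obtain ⟨c0, hc0⟩ := IsAlgClosed.exists_pow_nat_eq (F 0) (n := 3) (by norm_num)
  have hc00 : c0 ≠ 0 := by
    rintro rfl
    apply h0
    rw [← hc0]; norm_num
  set G : ℂ → ℂ := fun w => c0 * exp (log (F w / F 0) / 3) with hG
  have hG3 : ∀ w ∈ ball (0 : ℂ) ρ₁, G w ^ 3 = F w := by
    intro w hw
    have hne : F w / F 0 ≠ 0 := slitPlane_ne_zero (hsl w hw)
    simp only [hG]
    rw [mul_pow, hc0, ← Complex.exp_nat_mul]
    rw [show ((3 : ℕ) : ℂ) * (log (F w / F 0) / 3) = log (F w / F 0) by push_cast; ring,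
      exp_log hne]
    field_simp
  have hGne : ∀ w, G w ≠ 0 := fun w => mul_ne_zero hc00 (exp_ne_zero _)
  have hGd : DifferentiableOn ℂ G (ball 0 ρ₁) := by
    have h1 : DifferentiableOn ℂ (fun w => F w / F 0) (ball 0 ρ₁) :=
      (hF.mono (ball_subset_ball hle)).div_const _
    exact (((h1.clog hsl).div_const 3).cexp).const_mul c0
  -- the half disc
  set U : Set ℂ := ball 0 ρ₁ ∩ UH with hU
  have hUo : IsOpen U := isOpen_ball.inter (isOpen_lt continuous_const Complex.continuous_im)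
  have hUH : Convex ℝ UH := by
    have : UH = {z : ℂ | 0 < Complex.imLm z} := rfl
    rw [this]
    exact convex_halfSpace_gt Complex.imLm.isLinear 0
  have hUc : Convex ℝ U := (convex_ball 0 ρ₁).inter hUH
  have hUsub : U ⊆ ball 0 ρ ∩ UH := inter_subset_inter_left _ (ball_subset_ball hle)
  have hdg : DifferentiableOn ℂ (deriv g) U := (hgd.mono hUsub).deriv hUo
  set q : ℂ → ℂ := fun w => deriv g w / G w with hq
  have hqd : DifferentiableOn ℂ q U :=
    hdg.div (hGd.mono inter_subset_left) (fun w _ => hGne w)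
  have hq3 : ∀ w ∈ U, q w ^ 3 = 1 := by
    intro w hw
    simp only [hq]
    rw [div_pow, h w (hUsub hw), hG3 w hw.1]
    apply div_self
    rw [← hG3 w hw.1]
    exact pow_ne_zero _ (hGne w)
  have hqc : ∀ w ∈ U, ∀ w' ∈ U, q w = q w' := by
    intro w hw w' hw'
    refine hUo.is_const_of_deriv_eq_zero hUc.isPreconnected hqd ?_ hw hw'
    intro v hv
    have hdv := (hqd.differentiableAt (hUo.mem_nhds hv)).hasDerivAt
    have h1 := hdv.pow 3
    have h2 : (fun w => q w ^ 3) =ᶠ[𝓝 v] fun _ => 1 := by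
      filter_upwards [hUo.mem_nhds hv] with u hu
      exact hq3 u hu
    have h3 : HasDerivAt (fun w => q w ^ 3) 0 v := (hasDerivAt_const v (1 : ℂ)).congr_of_eventuallyEq h2
    have h4 := h1.unique h3
    have h5 : q v ≠ 0 := by
      intro h6
      have := hq3 v hv
      rw [h6] at this
      norm_num at this
    have h7 : (3 : ℂ) * q v ^ 2 ≠ 0 := mul_ne_zero (by norm_num) (pow_ne_zero _ h5)
    have h8 : (3 : ℂ) * q v ^ 2 * deriv q v = 0 := by
      rw [← h4]; push_cast; ring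
    exact (mul_eq_zero.1 h8).resolve_left h7
  -- the constant
  have hw0 : (((ρ₁ / 2 : ℝ) : ℂ) * I) ∈ U := by
    refine ⟨?_, ?_⟩
    · rw [mem_ball_zero_iff, norm_mul, norm_I, mul_one, norm_real, Real.norm_eq_abs,
        abs_of_pos (by positivity)]
      linarith
    · rw [mem_UH]; simp; linarith
  set ω : ℂ := q (((ρ₁ / 2 : ℝ) : ℂ) * I) with hω
  have hω3 : ω ^ 3 = 1 := hq3 _ hw0
  have hdg' : ∀ w ∈ U, deriv g w = ω * G w := by
    intro w hw
    have := hqc w hw _ hw0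
    rw [← hω] at this
    rw [← this]
    simp only [hq]
    field_simp [hGne w]
  have hωn : ‖ω‖ = 1 := by
    have h1 : ‖ω‖ ^ 3 = 1 := by rw [← norm_pow, hω3, norm_one]
    exact (pow_eq_one_iff_of_nonneg (norm_nonneg _) (by norm_num)).1 h1
  have h0b1 : (0 : ℂ) ∈ ball (0 : ℂ) ρ₁ := mem_ball_self hρ₁
  refine ⟨ω * G 0, by rw [mul_pow, hω3, one_mul, hG3 0 h0b1], ?_⟩
  intro ε hε
  have hGc : ContinuousAt G 0 := (hGd.differentiableAt (isOpen_ball.mem_nhds h0b1)).continuousAt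
  obtain ⟨δ₀, hδ₀, hδG⟩ := Metric.continuousAt_iff.1 hGc ε hε
  set δ := min δ₀ ρ₁ with hδ
  have hδ0 : 0 < δ := lt_min hδ₀ hρ₁
  refine ⟨δ, hδ0, ?_⟩
  set V : Set ℂ := ball 0 δ ∩ UH with hV
  have hVU : V ⊆ U := inter_subset_inter_left _ (ball_subset_ball (min_le_right _ _))
  have hVc : Convex ℝ V := (convex_ball 0 δ).inter hUH
  have hmv : ∀ w ∈ V, ∀ w' ∈ V,
      ‖(g w - ω * G 0 * w) - (g w' - ω * G 0 * w')‖ ≤ ε * ‖w - w'‖ := by
    intro w hw w' hw'
    refine hVc.norm_image_sub_le_of_norm_hasDerivWithin_le (𝕜 := ℂ)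
      (f := fun w => g w - ω * G 0 * w) (f' := fun w => ω * G w - ω * G 0 * 1)
      ?_ ?_ hw' hw
    · intro v hv
      have h1 : HasDerivAt g (ω * G v) v := by
        rw [← hdg' v (hVU hv)]
        exact (hgd.differentiableAt ((isOpen_ball.inter
          (isOpen_lt continuous_const Complex.continuous_im)).mem_nhds
          (hUsub (hVU hv)))).hasDerivAt
      exact (h1.sub ((hasDerivAt_id v).const_mul (ω * G 0))).hasDerivWithinAt
    · intro v hv
      have h1 : ω * G v - ω * G 0 * 1 = ω * (G v - G 0) := by ring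
      rw [h1, norm_mul, hωn, one_mul, ← dist_eq_norm]
      apply le_of_lt
      apply hδG
      have := hv.1
      rw [mem_ball] at this
      exact this.trans_le (min_le_left _ _)
  -- pass to the boundary
  have hclo : ∀ v : ℂ, ‖v‖ < δ → 0 ≤ v.im → (𝓝[V] v).NeBot ∧
      Tendsto (fun w => g w - ω * G 0 * w) (𝓝[V] v) (𝓝 (g v - ω * G 0 * v)) := by
    intro v hv hvi
    constructor
    · rw [← mem_closure_iff_nhdsWithin_neBot, Metric.mem_closure_iff]
      intro η hη
      set s := min (η / 2) ((δ - ‖v‖) / 2) with hs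
      have hs0 : 0 < s := lt_min (by positivity) (by linarith)
      refine ⟨v + s * I, ⟨?_, ?_⟩, ?_⟩
      · rw [mem_ball_zero_iff]
        calc ‖v + s * I‖ ≤ ‖v‖ + ‖(s : ℂ) * I‖ := norm_add_le _ _
          _ = ‖v‖ + s := by
              rw [norm_mul, norm_I, mul_one, norm_real, Real.norm_eq_abs, abs_of_pos hs0]
          _ < δ := by
              have := min_le_right (η / 2) ((δ - ‖v‖) / 2)
              linarith
      · rw [mem_UH]; simp; linarith
      · rw [dist_eq_norm]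
        have : v - (v + s * I) = -((s : ℂ) * I) := by ring
        rw [this, norm_neg, norm_mul, norm_I, mul_one, norm_real, Real.norm_eq_abs,
          abs_of_pos hs0]
        have := min_le_left (η / 2) ((δ - ‖v‖) / 2)
        linarith
    · have hvb : v ∈ ball (0 : ℂ) ρ ∩ {w : ℂ | 0 ≤ w.im} := by
        refine ⟨?_, hvi⟩
        rw [mem_ball_zero_iff]
        exact hv.trans_le ((min_le_right _ _).trans hle)
      have h1 : Tendsto g (𝓝[V] v) (𝓝 (g v)) := by
        refine (hgc v hvb).mono_left (nhdsWithin_mono _ ?_)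
        intro w hw
        exact ⟨ball_subset_ball ((min_le_right _ _).trans hle) hw.1, (mem_UH.1 hw.2).le⟩
      refine h1.sub ?_
      have h2 : Continuous fun w : ℂ => ω * G 0 * w := by fun_prop
      exact (h2.tendsto v).mono_left nhdsWithin_le_nhds
  intro w hw hwi
  obtain ⟨n0, t0⟩ := hclo 0 (by rw [norm_zero]; exact hδ0) (by simp)
  obtain ⟨nw, tw⟩ := hclo w hw hwi
  -- first pass: w fixed in V
  have s1 : ∀ v ∈ V, ‖(g v - ω * G 0 * v) - (g 0 - ω * G 0 * 0)‖ ≤ ε * ‖v - 0‖ := by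
    intro v hv
    have h1 : Tendsto (fun w' => ‖(g v - ω * G 0 * v) - (g w' - ω * G 0 * w')‖) (𝓝[V] 0)
        (𝓝 ‖(g v - ω * G 0 * v) - (g 0 - ω * G 0 * 0)‖) := (tendsto_const_nhds.sub t0).norm
    have h2 : Tendsto (fun w' => ε * ‖v - w'‖) (𝓝[V] 0) (𝓝 (ε * ‖v - 0‖)) := by
      have : Continuous fun w' : ℂ => ε * ‖v - w'‖ := by fun_prop
      exact (this.tendsto 0).mono_left nhdsWithin_le_nhds
    refine le_of_tendsto_of_tendsto h1 h2 ?_
    filter_upwards [self_mem_nhdsWithin] with w' hw'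
    exact hmv v hv w' hw'
  have h1 : Tendsto (fun v => ‖(g v - ω * G 0 * v) - (g 0 - ω * G 0 * 0)‖) (𝓝[V] w)
      (𝓝 ‖(g w - ω * G 0 * w) - (g 0 - ω * G 0 * 0)‖) := (tw.sub_const _).norm
  have h2 : Tendsto (fun v : ℂ => ε * ‖v - 0‖) (𝓝[V] w) (𝓝 (ε * ‖w - 0‖)) := by
    have : Continuous fun v : ℂ => ε * ‖v - 0‖ := by fun_prop
    exact (this.tendsto w).mono_left nhdsWithin_le_nhds
  have h3 := le_of_tendsto_of_tendsto h1 h2 (by
    filter_upwards [self_mem_nhdsWithin] with v hv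
    exact s1 v hv)
  rw [sub_zero, mul_zero, sub_zero] at h3
  calc ‖g w - g 0 - ω * G 0 * w‖ = ‖g w - ω * G 0 * w - g 0‖ := by congr 1; ring
    _ ≤ ε * ‖w‖ := h3

end Pool.Agent.H29.M7
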