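import Mathlib
import Pool.Agent.H29.M7.Chart
import Pool.Agent.H29.M7.Local
import Pool.Agent.Q1.M4.Final

set_option autoImplicit false
open Complex Metric Set Topology Filter

/-! Module M7 of Q1, J12: the normalised one-point function within a type. -/

namespace Pool.Agent.H29.M7

open Pool.Agent.Q1.M4
open Pool.Agent.Q1.M5 (hh lv FlatV App StB2 StPz)
open Pool.Agent.H83.Lo (UH extMap mem_UH)

variable {P : PType} {x y : ℤ → ℝ} {ψ : ℂ → ℂ} {W : ℝ}

/-- Value `r` and derivative `D` along the boundary of `ψ` at the vertex `n`. -/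
structure BV (P : PType) (x y : ℤ → ℝ) (ψ : ℂ → ℂ) (n : ℕ) (r D : ℝ) : Prop where
  val : Tendsto ψ (𝓝[Om P.Q x y] (pt x y (P.vert n))) (𝓝 (r : ℂ))
  der : Tendsto (fun z => (ψ z - r) / (z - pt x y (P.vert n)))
    (𝓝[Om P.Q x y] (pt x y (P.vert n))) (𝓝 (D / udir (P.side n).2))

/-- Boundary points are limits of inner points. -/
lemma neBot_vert (hx : StrictMono x) (hy : StrictMono y) (P : PType) (n : ℕ) :
    (𝓝[Om P.Q x y] (pt x y (P.vert n))).NeBot := by
  rw [← mem_closure_iff_nhdsWithin_neBot]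
  have := P.sidePt_mem_frontier hx hy n (t := 0) (by simp)
  rw [P.sidePt_zero] at this
  exact frontier_subset_closure this

lemma BV.unique (hx : StrictMono x) (hy : StrictMono y) {n : ℕ} {r D r' D' : ℝ}
    (h : BV P x y ψ n r D) (h' : BV P x y ψ n r' D') : r = r' ∧ D = D' := by
  have := neBot_vert hx hy P n
  have e1 : (r : ℂ) = r' := tendsto_nhds_unique h.val h'.val
  have e1' : r = r' := by exact_mod_cast e1
  subst e1'
  refine ⟨rfl, ?_⟩
  have e2 := tendsto_nhds_unique h.der h'.der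
  have h1 := udir_ne (P.side n).2
  have e3 : (D : ℂ) = D' := by
    field_simp at e2
    exact e2
  exact_mod_cast e3

/-- The local model of a function at a flat vertex. -/
structure LocM (P : PType) (x y : ℤ → ℝ) (ψ : ℂ → ℂ) (W : ℝ) (n : ℕ) (ρ : ℝ) (E : ℂ → ℂ) :
    Prop where
  pos : 0 < ρ
  half : ∀ z ∈ ball (pt x y (P.vert n)) ρ, z ∈ Om P.Q x y ↔
    0 < ((z - pt x y (P.vert n)) / udir (P.side n).2).im
  holo : DifferentiableOn ℂ E (ball 0 ρ)
  eq : ∀ w ∈ ball (0 : ℂ) ρ, 0 < w.im → pt x y (P.vert n) + udir (P.side n).2 * w ∈ Om P.Q x y ∧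
    E w = ψ (pt x y (P.vert n) + udir (P.side n).2 * w)
  bd : ∀ s : ℝ, |s| < ρ → (E s).im = 0 ∧ (E s).re < W ∧ ∃ a : ℝ, 0 < a ∧ HasDerivAt E a s

/-- Tendsto along the embedding of the half disc. -/
lemma tendsto_emb {Ω : Set ℂ} {p e : ℂ} {ρ s : ℝ} (hs : |s| < ρ)
    (hin : ∀ w ∈ ball (0 : ℂ) ρ, 0 < w.im → p + e * w ∈ Ω) :
    Tendsto (fun w : ℂ => p + e * w) (𝓝[UH] (s : ℂ)) (𝓝[Ω] (p + s * e)) := by
  refine tendsto_nhdsWithin_of_tendsto_nhds_of_eventually_within _ ?_ ?_
  · have : Continuous fun w : ℂ => p + e * w := by fun_prop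
    have h5 := this.tendsto (s : ℂ)
    rw [mul_comm e (s : ℂ)] at h5
    exact h5.mono_left nhdsWithin_le_nhds
  · have h6 : ∀ᶠ w in 𝓝[UH] (s : ℂ), w ∈ ball (0 : ℂ) ρ := by
      apply mem_nhdsWithin_of_mem_nhds
      apply isOpen_ball.mem_nhds
      rw [mem_ball_zero_iff, norm_real, Real.norm_eq_abs]
      exact hs
    filter_upwards [h6, self_mem_nhdsWithin] with w hw hw'
    exact hin w hw hw'

lemma neBot_UH (s : ℝ) : (𝓝[UH] (s : ℂ)).NeBot := by
  rw [← mem_closure_iff_nhdsWithin_neBot, Metric.mem_closure_iff]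
  intro η hη
  refine ⟨s + (η / 2 : ℝ) * I, ?_, ?_⟩
  · rw [mem_UH]; simp; linarith
  · rw [dist_eq_norm]
    have : (s : ℂ) - (s + (η / 2 : ℝ) * I) = -(((η / 2 : ℝ) : ℂ) * I) := by ring
    rw [this, norm_neg, norm_mul, norm_I, mul_one, norm_real, Real.norm_eq_abs,
      abs_of_pos (by positivity)]
    linarith

/-- The local model of a chart at a flat vertex of the free arc. -/
theorem Chart.locM (C : Chart P x y ψ W) (hx : StrictMono x) (hy : StrictMono y) {n : ℕ}
    (hn : FlatV P n) : ∃ ρ E, LocM P x y ψ W n ρ E := by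
  obtain ⟨h0, hm, hk⟩ := hn
  obtain ⟨k, rfl⟩ : ∃ k, n = k + 1 := ⟨n - 1, by omega⟩
  rw [Nat.add_sub_cancel] at hk
  obtain ⟨ρ, hρ, hhalf, hsides⟩ := half_disc_flat hx hy hk.symm
  have hmN := P.hmN
  set p := pt x y (P.vert (k + 1)) with hp
  set e := udir (P.side k).2 with he
  have hfree : ∀ s : ℝ, |s| < ρ → ∃ r : ℝ, r < W ∧
      Tendsto ψ (𝓝[Om P.Q x y] (p + s * e)) (𝓝 (r : ℂ)) := by
    intro s hs
    rcases hsides s hs with h | ⟨h, h1, h2⟩ | ⟨h, h1, h2⟩
    · have e1 : p + s * e = P.sidePt x y (k + 1) 0 := by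
        rw [P.sidePt_zero, h]; simp [hp]
      rw [e1]
      exact C.free (k + 1) hm 0 (by simp)
        (P.not_mem_marks hx hy (by omega) (by simp) (fun _ => by omega) (fun h => by simp at h))
    · rw [h1]
      refine C.free (k + 1) hm _ (Ioo_subset_Icc_self h2)
        (P.not_mem_marks hx hy (by omega) (Ioo_subset_Icc_self h2)
        (fun h => absurd h h2.1.ne') (fun h => absurd h h2.2.ne))
    · rw [h1]
      refine C.free k (by omega) _ (Ioo_subset_Icc_self h2)
        (P.not_mem_marks hx hy (by omega) (Ioo_subset_Icc_self h2)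
        (fun h => absurd h h2.1.ne') (fun h => absurd h h2.2.ne))
  obtain ⟨E, hE1, hE2, hE3⟩ := local_ext (p := p) (e := e) (ρ := ρ) (norm_udir _) hhalf C.holo
    C.pos (by
      intro s hs
      obtain ⟨r, -, hr⟩ := hfree s hs
      have := (Complex.continuous_im.tendsto (r : ℂ)).comp hr
      rwa [ofReal_im] at this)
  refine ⟨ρ, E, hρ, ?_, hE1, ?_, ?_⟩
  · rw [← hk]; exact hhalf
  · rw [← hk]; exact hE2
  · intro s hs
    obtain ⟨h1, a, ha, h2⟩ := hE3 s hs
    refine ⟨h1, ?_, a, ha, h2⟩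
    obtain ⟨r, hrW, hr⟩ := hfree s hs
    have h3 := hr.comp (tendsto_emb hs (fun w hw hi => (hE2 w hw hi).1))
    have h4 : Tendsto E (𝓝[UH] (s : ℂ)) (𝓝 (E s)) :=
      h2.continuousAt.tendsto.mono_left nhdsWithin_le_nhds
    have h5 : Tendsto E (𝓝[UH] (s : ℂ)) (𝓝 (r : ℂ)) := by
      refine h3.congr' ?_
      have h6 : ∀ᶠ w in 𝓝[UH] (s : ℂ), w ∈ ball (0 : ℂ) ρ := by
        apply mem_nhdsWithin_of_mem_nhds
        apply isOpen_ball.mem_nhds
        rw [mem_ball_zero_iff, norm_real, Real.norm_eq_abs]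
        exact hs
      filter_upwards [h6, self_mem_nhdsWithin] with w hw hw'
      exact (hE2 w hw hw').2.symm
    have := neBot_UH s
    rw [tendsto_nhds_unique h4 h5, ofReal_re]
    exact hrW

/-- The boundary value from the local model. -/
theorem LocM.bV {n : ℕ} {ρ : ℝ} {E : ℂ → ℂ} (h : LocM P x y ψ W n ρ E) {a : ℝ}
    (ha : HasDerivAt E a 0) : BV P x y ψ n (E 0).re a := by
  set p := pt x y (P.vert n) with hp
  set e := udir (P.side n).2 with he
  have he0 : e ≠ 0 := udir_ne _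
  have hEr : ((E 0).re : ℂ) = E 0 := by
    have h1 := (h.bd 0 (by rw [abs_zero]; exact h.pos)).1
    rw [ofReal_zero] at h1
    apply Complex.ext
    · rw [ofReal_re]
    · rw [ofReal_im, h1]
  have h1 : Tendsto (fun z : ℂ => (z - p) / e) (𝓝[Om P.Q x y] p) (𝓝[≠] 0) := by
    refine tendsto_nhdsWithin_of_tendsto_nhds_of_eventually_within _ ?_ ?_
    · have : Continuous fun z : ℂ => (z - p) / e := by fun_prop
      have h5 := this.tendsto p
      rw [sub_self, zero_div] at h5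
      exact h5.mono_left nhdsWithin_le_nhds
    · have h6 : ∀ᶠ z in 𝓝[Om P.Q x y] p, z ∈ ball p ρ :=
        mem_nhdsWithin_of_mem_nhds (isOpen_ball.mem_nhds (mem_ball_self h.pos))
      filter_upwards [h6, self_mem_nhdsWithin] with z hz hz'
      have h7 := (h.half z hz).1 hz'
      intro h8
      rw [mem_singleton_iff] at h8
      rw [h8] at h7
      simp at h7
  have h2 : ∀ᶠ z in 𝓝[Om P.Q x y] p, E ((z - p) / e) = ψ z := by
    have h6 : ∀ᶠ z in 𝓝[Om P.Q x y] p, z ∈ ball p ρ :=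
      mem_nhdsWithin_of_mem_nhds (isOpen_ball.mem_nhds (mem_ball_self h.pos))
    filter_upwards [h6, self_mem_nhdsWithin] with z hz hz'
    have h7 := (h.half z hz).1 hz'
    have h8 : (z - p) / e ∈ ball (0 : ℂ) ρ := by
      rw [mem_ball_zero_iff, norm_div, norm_udir, div_one, ← dist_eq_norm]
      exact hz
    rw [(h.eq _ h8 h7).2]
    congr 1
    field_simp
    ring
  have hder : Tendsto (fun w : ℂ => (E w - E 0) / w) (𝓝[≠] 0) (𝓝 (a : ℂ)) := by
    have h3 := hasDerivAt_iff_tendsto_slope.1 ha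
    refine h3.congr ?_
    intro w
    rw [slope_def_field, sub_zero]
  constructor
  · have h3 := (ha.continuousAt.tendsto.mono_left (nhdsWithin_le_nhds (s := {0}ᶜ))).comp h1
    rw [hEr]
    refine h3.congr' ?_
    filter_upwards [h2] with z hz
    exact hz
  · have h3 := (hder.comp h1).div_const e
    refine h3.congr' ?_
    filter_upwards [h2] with z hz
    simp only [Function.comp_apply]
    rw [hz, hEr, div_div_eq_mul_div, div_right_comm, mul_div_assoc, div_self he0, mul_one]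

/-- Existence of the boundary values. -/
theorem Chart.exists_bv (C : Chart P x y ψ W) (hx : StrictMono x) (hy : StrictMono y) {n : ℕ}
    (hn : FlatV P n) : ∃ r D : ℝ, r < W ∧ 0 < D ∧ BV P x y ψ n r D := by
  obtain ⟨ρ, E, h⟩ := C.locM hx hy hn
  obtain ⟨-, h1, a, ha, h2⟩ := h.bd 0 (by rw [abs_zero]; exact h.pos)
  rw [ofReal_zero] at h1 h2
  exact ⟨_, a, h1, ha, h.bV h2⟩

end Pool.Agent.H29.M7
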