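import Mathlib
import Pool.Agent.H29.M7.Within
import Pool.Agent.H91.Q1.B2Near

set_option autoImplicit false
open Complex Metric Set Topology Filter

/-! Module M7 of Q1, J12: the normalised one-point functions at the flat vertices of one type are
proportional to the cube root of `D / (W - r)`. -/

namespace Pool.Agent.H29.M7

open Pool.Agent.Q1.M4
open Pool.Agent.Q1.M5 (hh lv FlatV App StB2 StPz)
open Pool.Agent.H83.Lo (UH extMap mem_UH)

variable {P : PType} {x y : ℤ → ℝ} {ψ : ℂ → ℂ} {W : ℝ}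

lemma mem_closure_half {δ : ℝ} {v : ℂ} (hv : ‖v‖ < δ) (hvi : 0 ≤ v.im) :
    v ∈ closure (ball (0 : ℂ) δ ∩ UH) := by
  rw [Metric.mem_closure_iff]
  intro η hη
  set s := min (η / 2) ((δ - ‖v‖) / 2) with hs
  have hs0 : 0 < s := lt_min (by positivity) (by linarith)
  refine ⟨v + s * I, ⟨?_, ?_⟩, ?_⟩
  · rw [mem_ball_zero_iff]
    calc ‖v + s * I‖ ≤ ‖v‖ + ‖(s : ℂ) * I‖ := norm_add_le _ _
      _ = ‖v‖ + s := by
          rw [norm_mul, norm_I, mul_one, norm_real, Real.norm_eq_abs, abs_of_pos hs0]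
      _ < δ := by
          have := min_le_right (η / 2) ((δ - ‖v‖) / 2)
          linarith
  · rw [mem_UH]; simp; linarith
  · rw [dist_eq_norm]
    have : v - (v + s * I) = -((s : ℂ) * I) := by ring
    rw [this, norm_neg, norm_mul, norm_I, mul_one, norm_real, Real.norm_eq_abs,
      abs_of_pos hs0]
    have := min_le_left (η / 2) ((δ - ‖v‖) / 2)
    linarith

lemma len_eq (hx : StrictMono x) (hy : StrictMono y) (P : PType) (n : ℕ) :
    P.len x y n = len x y (P.side n) := by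
  unfold PType.len
  rw [← P.sidePt_one, P.sidePt_eq, add_sub_cancel_left, one_mul, norm_mul, norm_udir, mul_one,
    norm_real, Real.norm_eq_abs, abs_of_pos (side_len_pos hx hy _)]

/-- The increments of the limit function at a flat vertex of the free arc. -/
theorem Chart.inc (C : Chart P x y ψ W) (hx : StrictMono x) (hy : StrictMono y) {n : ℕ}
    (hn : FlatV P n) {h : ℂ → ℂ} (H : LimitData P x y h) {μ : ℝ} (hμ : μ ≠ 0)
    (hcube : ∀ z ∈ Om P.Q x y, deriv h z ^ 3 = μ * (deriv ψ z / (ψ z - W))) {r D : ℝ}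
    (hb : BV P x y ψ n r D) : ∃ c : ℂ, ‖c‖ ^ 3 = |μ| * (D / (W - r)) ∧
      Tendsto (fun t : ℝ => (h (P.sidePt x y n t) - h (P.sidePt x y n 0)) / (t : ℂ)) (𝓝[>] 0)
        (𝓝 (c * P.len x y n)) := by
  obtain ⟨ρ, E, hE⟩ := C.locM hx hy hn
  obtain ⟨hi0, hW0, a, ha, hda⟩ := hE.bd 0 (by rw [abs_zero]; exact hE.pos)
  rw [ofReal_zero] at hi0 hW0 hda
  obtain ⟨rfl, rfl⟩ := (hE.bV hda).unique hx hy hb
  set p := pt x y (P.vert n) with hp
  set e := udir (P.side n).2 with he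
  have he0 : e ≠ 0 := udir_ne _
  have hopen := isOpen_Om P.Q x y
  have hμc : (μ : ℂ) ≠ 0 := by exact_mod_cast hμ
  have hac : (a : ℂ) ≠ 0 := by exact_mod_cast ha.ne'
  -- a smaller radius
  obtain ⟨ρ₁, hρ₁, hle, hne⟩ : ∃ ρ₁ : ℝ, 0 < ρ₁ ∧ ρ₁ ≤ ρ ∧
      ∀ w ∈ ball (0 : ℂ) ρ₁, E w - W ≠ 0 := by
    have h2 : ∀ᶠ w in 𝓝 (0 : ℂ), E w - W ≠ 0 := by
      have h1 : ContinuousAt (fun w => E w - W) 0 := hda.continuousAt.sub continuousAt_const
      apply h1.eventually_ne
      intro h3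
      have := congrArg Complex.re h3
      simp at this
      linarith
    obtain ⟨ε, hε, h3⟩ := Metric.eventually_nhds_iff_ball.1 h2
    exact ⟨min ε ρ, lt_min hε hE.pos, min_le_right _ _,
      fun w hw => h3 w (ball_subset_ball (min_le_left _ _) hw)⟩
  set g : ℂ → ℂ := fun w => h (p + e * w) with hg
  set F : ℂ → ℂ := fun w => μ * e ^ 2 * (deriv E w / (E w - W)) with hF
  have hEd : DifferentiableOn ℂ E (ball 0 ρ₁) := hE.holo.mono (ball_subset_ball hle)
  have hFd : DifferentiableOn ℂ F (ball 0 ρ₁) := by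
    apply DifferentiableOn.const_mul
    exact (hEd.deriv isOpen_ball).div (hEd.sub_const _) hne
  have hmap : ∀ w ∈ ball (0 : ℂ) ρ₁ ∩ UH, p + e * w ∈ Om P.Q x y := fun w hw =>
    (hE.eq w (ball_subset_ball hle hw.1) hw.2).1
  have hgc : ContinuousOn g (ball 0 ρ₁ ∩ {w | 0 ≤ w.im}) := by
    refine H.cont.comp (t := Reg P.Q x y) (by fun_prop) ?_
    intro w hw
    have h1 := mem_closure_half (mem_ball_zero_iff.1 hw.1) hw.2
    have h2 : (fun w : ℂ => p + e * w) w ∈ closure ((fun w : ℂ => p + e * w) ''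
        (ball (0 : ℂ) ρ₁ ∩ UH)) :=
      image_closure_subset_closure_image (by fun_prop) ⟨w, h1, rfl⟩
    rw [← closure_Om hx hy]
    refine closure_mono ?_ h2
    rintro _ ⟨v, hv, rfl⟩
    exact hmap v hv
  have hgd : DifferentiableOn ℂ g (ball 0 ρ₁ ∩ UH) :=
    H.holo.comp (by fun_prop) hmap
  have hlin : ∀ w : ℂ, HasDerivAt (fun w : ℂ => p + e * w) e w := by
    intro w
    have := ((hasDerivAt_id w).const_mul e).const_add p
    simpa using this
  have hUo : IsOpen (ball (0 : ℂ) ρ₁ ∩ UH) :=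
    isOpen_ball.inter (isOpen_lt continuous_const Complex.continuous_im)
  have h3 : ∀ w ∈ ball (0 : ℂ) ρ₁ ∩ UH, deriv g w ^ 3 = F w := by
    intro w hw
    have hz := hmap w hw
    have d1 : HasDerivAt g (deriv h (p + e * w) * e) w :=
      HasDerivAt.comp w ((H.holo.differentiableAt (hopen.mem_nhds hz)).hasDerivAt) (hlin w)
    have d2 : HasDerivAt (fun w => ψ (p + e * w)) (deriv ψ (p + e * w) * e) w :=
      HasDerivAt.comp w ((C.holo.differentiableAt (hopen.mem_nhds hz)).hasDerivAt) (hlin w)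
    have d3 : HasDerivAt E (deriv ψ (p + e * w) * e) w := by
      refine d2.congr_of_eventuallyEq ?_
      filter_upwards [hUo.mem_nhds hw] with v hv
      exact (hE.eq v (ball_subset_ball hle hv.1) hv.2).2
    rw [d1.deriv, mul_pow, hcube _ hz]
    simp only [hF]
    rw [d3.deriv, (hE.eq w (ball_subset_ball hle hw.1) hw.2).2]
    ring
  have h0 : F 0 ≠ 0 := by
    simp only [hF]
    rw [hda.deriv]
    exact mul_ne_zero (mul_ne_zero hμc (pow_ne_zero _ he0))
      (div_ne_zero hac (hne 0 (mem_ball_self hρ₁)))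
  obtain ⟨c, hc3, hc⟩ := cube_local hρ₁ hgc hgd hFd h3 h0
  refine ⟨c, ?_, ?_⟩
  · rw [← norm_pow, hc3]
    simp only [hF]
    rw [hda.deriv, norm_mul, norm_mul, norm_pow, norm_udir, norm_div, norm_real, norm_real,
      Real.norm_eq_abs, Real.norm_eq_abs, abs_of_pos ha]
    have h4 : ‖E 0 - W‖ = W - (E 0).re := by
      have : E 0 - W = (((E 0).re - W : ℝ) : ℂ) := by
        apply Complex.ext
        · simp
        · simp [hi0]
      rw [this, norm_real, Real.norm_eq_abs, abs_of_neg (by linarith)]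
      ring
    rw [h4]
    ring
  · have hL := side_len_pos hx hy (P.side n)
    rw [len_eq hx hy, Metric.tendsto_nhdsWithin_nhds]
    intro ε hε
    obtain ⟨δ, hδ, hcδ⟩ := hc (ε / (2 * len x y (P.side n))) (by positivity)
    refine ⟨δ / len x y (P.side n), by positivity, ?_⟩
    intro t ht htd
    have htpos : 0 < t := ht
    rw [Real.dist_eq, sub_zero, abs_of_pos htpos, lt_div_iff₀ hL] at htd
    have e1 : P.sidePt x y n t = p + e * (t * len x y (P.side n) : ℝ) := by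
      rw [P.sidePt_eq]; ring
    have e2 : P.sidePt x y n 0 = p + e * 0 := by
      rw [P.sidePt_zero, mul_zero, add_zero]
    have h5 := hcδ ((t * len x y (P.side n) : ℝ) : ℂ) (by
      rw [norm_real, Real.norm_eq_abs, abs_of_pos (by positivity)]
      exact htd) (by simp)
    have htc : (t : ℂ) ≠ 0 := by exact_mod_cast htpos.ne'
    rw [dist_eq_norm, e1, e2]
    have e3 : (h (p + e * ((t * len x y (P.side n) : ℝ) : ℂ)) - h (p + e * 0)) / (t : ℂ) -
        c * (len x y (P.side n) : ℂ) = (g ((t * len x y (P.side n) : ℝ) : ℂ) - g 0 -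
        c * ((t * len x y (P.side n) : ℝ) : ℂ)) / (t : ℂ) := by
      simp only [hg]
      push_cast
      field_simp
    rw [e3, norm_div, norm_real, Real.norm_of_nonneg htpos.le, div_lt_iff₀ htpos]
    refine h5.trans_lt ?_
    rw [norm_real, Real.norm_eq_abs, abs_of_pos (by positivity)]
    have e4 : ε / (2 * len x y (P.side n)) * (t * len x y (P.side n)) = ε / 2 * t := by
      field_simp
    rw [e4]
    nlinarith

/-- `g` is the normalised one-point function at the vertex `n`. -/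
def IsG (pz : ℝ → ℝ) (P : PType) (x y : ℤ → ℝ) (n : ℕ) (g : ℝ) : Prop :=
  ∀ (R : ℕ → ℝ) (X Y : ℕ → ℤ → ℤ), App x y R X Y →
    Tendsto (fun j => hh P (X j) (Y j) (lv P (X j) (Y j) n) / pz (R j)) atTop (𝓝 g)

/-- The canonical approximating sequence. -/
theorem exists_app (hx : StrictMono x) (hy : StrictMono y) :
    ∃ (R : ℕ → ℝ) (X Y : ℕ → ℤ → ℤ), App x y R X Y := by
  have hR : Tendsto (fun j : ℕ => (j : ℝ) + 1) atTop atTop :=
    tendsto_atTop_add_const_right _ _ tendsto_natCast_atTop_atTop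
  have hinv : Tendsto (fun j : ℕ => ((j : ℝ) + 1)⁻¹) atTop (𝓝 0) :=
    tendsto_inv_atTop_zero.comp hR
  have key : ∀ z : ℤ → ℝ, ∀ i, Tendsto (fun j : ℕ => ((⌊z i * ((j : ℝ) + 1)⌋ + i : ℤ) : ℝ) /
      ((j : ℝ) + 1)) atTop (𝓝 (z i)) := by
    intro z i
    have h1 := (H91.Q1.tendsto_floor hR (ρ := z i)).add (hinv.const_mul (i : ℝ))
    rw [mul_zero, add_zero] at h1
    refine h1.congr fun j => ?_
    push_cast
    ring
  have mono : ∀ z : ℤ → ℝ, StrictMono z → ∀ j : ℕ,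
      StrictMono (fun i : ℤ => ⌊z i * ((j : ℝ) + 1)⌋ + i) := by
    intro z hz j a b hab
    have h1 : ⌊z a * ((j : ℝ) + 1)⌋ ≤ ⌊z b * ((j : ℝ) + 1)⌋ :=
      Int.floor_le_floor (mul_le_mul_of_nonneg_right (hz hab).le (by positivity))
    simp only
    omega
  exact ⟨fun j => (j : ℝ) + 1, fun j i => ⌊x i * ((j : ℝ) + 1)⌋ + i,
    fun j i => ⌊y i * ((j : ℝ) + 1)⌋ + i, ⟨hR, key x, key y⟩,
    Eventually.of_forall fun j => ⟨mono x hx j, mono y hy j⟩⟩

lemma IsG.unique {pz : ℝ → ℝ} (hx : StrictMono x) (hy : StrictMono y) {n : ℕ} {g g' : ℝ}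
    (h : IsG pz P x y n g) (h' : IsG pz P x y n g') : g = g' := by
  obtain ⟨R, X, Y, hA⟩ := exists_app hx hy
  exact tendsto_nhds_unique (h R X Y hA) (h' R X Y hA)

/-- All the data of M4. -/
def StSeq : Prop := ∀ (P : PType) (x y : ℤ → ℝ), StrictMono x → StrictMono y →
  ∀ (R : ℕ → ℝ) (X Y : ℕ → ℤ → ℤ), App x y R X Y → SeqData P x y (hh P) {n | FlatV P n} R X Y

/-- **Within a type**: `g` is proportional to the cube root of `D / (W - r)`. -/
theorem within {pz : ℝ → ℝ} (hpz : StPz pz) (hB2 : StB2 pz) (hSeq : StSeq) (P : PType)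
    (hx : StrictMono x) (hy : StrictMono y) (C : Chart P x y ψ W) :
    ∃ K : ℝ, 0 < K ∧ ∀ n, FlatV P n → ∀ r D g : ℝ, BV P x y ψ n r D → IsG pz P x y n g →
      g = K * (D / (W - r)) ^ (1 / 3 : ℝ) := by
  by_cases hex : ∃ n', FlatV P n'
  swap
  · exact ⟨1, one_pos, fun n hn => absurd ⟨n, hn⟩ hex⟩
  obtain ⟨n', hn'⟩ := hex
  obtain ⟨g', hg'0, hg'⟩ := hB2 P x y hx hy n' hn'
  obtain ⟨R, X, Y, hA⟩ := exists_app hx hy
  have S := hSeq P x y hx hy R X Y hA
  obtain ⟨Hd, hD, hpt⟩ := S.data n' hn'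
  obtain ⟨U, hU⟩ : ∃ U : Ultrafilter ℕ, (U : Filter ℕ) ≤ atTop := Ultrafilter.exists_le _
  obtain ⟨h, hL, hlim⟩ := hD.limit hx hy U hU
  have hweight : ∀ n, FlatV P n → ∀ g, IsG pz P x y n g → Tendsto
      (fun j => (P.slen (X j) (Y j) n : ℝ) / R j * (hh P (X j) (Y j) (lpt (X j) (Y j) (P.vert n)) /
      hh P (X j) (Y j) (lpt (X j) (Y j) (P.vert n')))) atTop (𝓝 (P.len x y n * (g / g'))) := by
    intro n hn g hg
    refine (slen_tendsto (P := P) hx hy hA.app n).mul ?_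
    have h1 := (hg R X Y hA).div (hg' R X Y hA) hg'0.ne'
    refine h1.congr fun j => ?_
    simp only [Pi.div_apply]
    rw [div_div_div_cancel_right₀ (hpz.1 _).ne']
    rfl
  have hinc : ∀ n, FlatV P n → ∀ g, IsG pz P x y n g →
      Tendsto (fun t : ℝ => (h (P.sidePt x y n t) - h (P.sidePt x y n 0)) / (t : ℂ)) (𝓝[>] 0)
        (𝓝 (((P.len x y n * (g / g') : ℝ) : ℂ) * P.ph n)) := fun n hn g hg =>
    (hpt n hn).lim hD hx hy hU hlim ((hweight n hn g hg).mono_left hU)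
  have hph : ∀ k, P.ph k ≠ 0 := fun k hk => by
    have := P.norm_ph k; rw [hk, norm_zero] at this; exact zero_ne_one this
  -- `h` is not constant
  have hnc : ∃ z ∈ Om P.Q x y, deriv h z ≠ 0 := by
    have a' := hinc n' hn' g' hg'
    rw [div_self hg'0.ne', mul_one] at a'
    have hl : ((P.len x y n' : ℝ) : ℂ) ≠ 0 := by exact_mod_cast (len_pos hx hy P n').ne'
    have h1 : ∀ᶠ t : ℝ in 𝓝[>] 0, (h (P.sidePt x y n' t) - h (P.sidePt x y n' 0)) / (t : ℂ) ≠ 0 :=
      a'.eventually_ne (mul_ne_zero hl (hph n'))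
    have h2 : ∀ᶠ t : ℝ in 𝓝[>] 0, t < 1 :=
      (eventually_lt_nhds one_pos).filter_mono nhdsWithin_le_nhds
    obtain ⟨t, ht1, ht2, ht3⟩ := (h1.and (h2.and
      (self_mem_nhdsWithin : Ioi (0 : ℝ) ∈ 𝓝[>] (0 : ℝ)))).exists
    have ht3 : 0 < t := ht3
    apply hL.exists_deriv hx hy (n := n') ht3.le ht2.le
    intro he
    rw [he, sub_self, zero_div] at ht1
    exact ht1 rfl
  obtain ⟨μ, hμ, hcube⟩ := C.cube hx hy hL hnc
  refine ⟨g' * |μ| ^ (1 / 3 : ℝ), mul_pos hg'0 (Real.rpow_pos_of_pos (abs_pos.2 hμ) _), ?_⟩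
  intro n hn r D g hb hg
  obtain ⟨c, hc3, hc⟩ := C.inc hx hy hn hL hμ hcube hb
  have h1 := tendsto_nhds_unique (hinc n hn g hg) hc
  have hg0 : 0 < g := by
    obtain ⟨g2, h2, h3⟩ := hB2 P x y hx hy n hn
    rw [hg.unique hx hy h3]
    exact h2
  have h2 : g / g' = ‖c‖ := by
    have h3 := congrArg norm h1
    rw [norm_mul, norm_mul, P.norm_ph, mul_one, norm_real, norm_real, Real.norm_of_nonneg
      (mul_nonneg (len_pos hx hy P n).le (by positivity)),
      Real.norm_of_nonneg (len_pos hx hy P n).le, mul_comm] at h3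
    exact mul_right_cancel₀ (len_pos hx hy P n).ne' h3
  obtain ⟨r1, D1, hr1, hD1, hb1⟩ := C.exists_bv hx hy hn
  obtain ⟨rfl, rfl⟩ := hb.unique hx hy hb1
  have hq : 0 < D / (W - r) := div_pos hD1 (by linarith)
  have h4 : ‖c‖ = (|μ| * (D / (W - r))) ^ (1 / 3 : ℝ) := by
    rw [← hc3, ← Real.rpow_natCast, ← Real.rpow_mul (norm_nonneg _)]
    norm_num
  rw [Real.mul_rpow (abs_nonneg _) hq.le] at h4
  rw [mul_assoc, ← h4, ← h2]
  field_simp

end Pool.Agent.H29.M7
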