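import Mathlib
import Pool.Agent.H29.M7.Ratio
import Pool.Agent.H48.Q1.RefApp

set_option autoImplicit false
open Complex Metric Set Topology Filter

/-! Module M7 of Q1, J12: transfer of charts and one-point functions under refinements. -/

namespace Pool.Agent.H29.M7

open Pool.Agent.Q1.M4
open Pool.Agent.Q1.M5 (hh lv FlatV App StB2 StPz)
open Pool.Agent.H48.Q1 (ref Refi RefA vm mem_ref mem_ref' mem_ref fl_spec exists_refine)
open Pool.Agent.H75.Perc (dir dir_cases)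

variable {P : PType} {x y x' y' : ℤ → ℝ} {ψ : ℂ → ℂ} {W : ℝ} {I K : ℤ → ℤ}

lemma exists_int_line {x' : ℤ → ℝ} {a b : ℤ} (hab : a < b) {s : ℝ} (h1 : x' a ≤ s) (h2 : s ≤ x' b) :
    ∃ c, a ≤ c ∧ c < b ∧ x' c ≤ s ∧ s ≤ x' (c + 1) := by
  obtain ⟨k, rfl⟩ : ∃ k : ℕ, b = a + 1 + k := ⟨(b - a - 1).toNat, by omega⟩
  induction k with
  | zero => exact ⟨a, le_rfl, by omega, h1, by simpa using h2⟩
  | succ k ih =>
    rcases le_total s (x' (a + 1 + k)) with h | h
    · obtain ⟨c, c1, c2, c3, c4⟩ := ih (by omega) h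
      exact ⟨c, c1, by push_cast; omega, c3, c4⟩
    · exact ⟨a + 1 + k, by omega, by push_cast; omega, h, by
        rw [show a + 1 + (k : ℤ) + 1 = a + 1 + ((k + 1 : ℕ) : ℤ) by push_cast; ring]; exact h2⟩

/-- The region does not change under refinement. -/
theorem reg_ref (hr : Refi x y x' y' I K) (Q : Finset Cell) :
    Reg (ref I K Q) x' y' = Reg Q x y := by
  ext z
  constructor
  · rintro ⟨c, hc, ⟨a1, a2⟩, a3, a4⟩
    rw [mem_ref hr.hI hr.hK] at hc
    refine ⟨_, hc, ?_⟩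
    obtain ⟨f1, f2⟩ := fl_spec hr.hI c.1
    obtain ⟨g1, g2⟩ := fl_spec hr.hK c.2
    have m1 := hr.mx.monotone f1
    have m2 := hr.mx.monotone (show c.1 + 1 ≤ I (H48.Q1.fl I c.1 + 1) by omega)
    have m3 := hr.my.monotone g1
    have m4 := hr.my.monotone (show c.2 + 1 ≤ K (H48.Q1.fl K c.2 + 1) by omega)
    rw [hr.ex] at m1 m2
    rw [hr.ey] at m3 m4
    exact ⟨⟨m1.trans a1, a2.trans m2⟩, m3.trans a3, a4.trans m4⟩
  · rintro ⟨d, hd, ⟨a1, a2⟩, a3, a4⟩
    rw [← hr.ex] at a1 a2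
    rw [← hr.ey] at a3 a4
    obtain ⟨c1, p1, p2, p3, p4⟩ := exists_int_line (hr.hI (show d.1 < d.1 + 1 by omega)) a1 a2
    obtain ⟨c2, q1, q2, q3, q4⟩ := exists_int_line (hr.hK (show d.2 < d.2 + 1 by omega)) a3 a4
    exact ⟨(c1, c2), mem_ref'.2 ⟨d, hd, ⟨p1, p2⟩, q1, q2⟩, ⟨p3, p4⟩, q3, q4⟩

theorem om_ref (hr : Refi x y x' y' I K) (Q : Finset Cell) : Om (ref I K Q) x' y' = Om Q x y := by
  unfold Om
  rw [reg_ref hr]

lemma pt_vm (hr : Refi x y x' y' I K) (p : ℤ × ℤ) : pt x' y' (vm I K p) = pt x y p := by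
  unfold pt vm
  simp only
  rw [hr.ex, hr.ey]

lemma par {A B s : ℝ} (h : (A < B ∧ A ≤ s ∧ s ≤ B) ∨ (B < A ∧ B ≤ s ∧ s ≤ A)) :
    ∃ t ∈ Icc (0 : ℝ) 1, s = A + t * (B - A) := by
  rcases h with ⟨h, h1, h2⟩ | ⟨h, h1, h2⟩
  · have h3 : 0 < B - A := by linarith
    refine ⟨(s - A) / (B - A), ⟨div_nonneg (by linarith) h3.le, (div_le_one h3).2 (by linarith)⟩, ?_⟩
    rw [div_mul_cancel₀ _ h3.ne']; ring
  · have h3 : 0 < A - B := by linarith
    have h4 : B - A ≠ 0 := by linarith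
    refine ⟨(A - s) / (A - B), ⟨div_nonneg (by linarith) h3.le, (div_le_one h3).2 (by linarith)⟩, ?_⟩
    rw [show B - A = -(A - B) by ring, mul_neg, div_mul_cancel₀ _ h3.ne']; ring

/-- Fine vertices lie on the coarse side. -/
lemma fine_vert (hx : StrictMono x) (hy : StrictMono y) (hr : Refi x y x' y' I K) (P : PType)
    {n j : ℕ} (hj : j ≤ H48.Q1.len I K (P.side n)) :
    ∃ t ∈ Icc (0 : ℝ) 1, pt x' y' ((P.refine hr.hI hr.hK).vert (P.L I K n + j)) =
      P.sidePt x y n t := by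
  rw [P.refine_vert hr.hI hr.hK hj]
  unfold PType.sidePt
  rw [P.vert_succ]
  have hv : P.vert n = tail (P.side n) := rfl
  obtain ⟨⟨⟨a, b⟩, k⟩, hs⟩ : ∃ s, P.side n = s := ⟨_, rfl⟩
  rw [hs] at hj hv ⊢
  have i1 : I a < I (a + 1) := hr.hI (by omega)
  have i2 : K b < K (b + 1) := hr.hK (by omega)
  have x1 : x a < x (a + 1) := hx (by omega)
  have y1 : y b < y (b + 1) := hy (by omega)
  rcases H48.Q1.fsd_cases I K a b k 0 with ⟨h, g, -, -, e⟩ | ⟨h, g, -, -, e⟩ | ⟨h, g, -, -, e⟩ |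
    ⟨h, g, -, -, e⟩
  · have ht : tail ((a, b), k) = (a, b) := by unfold tail; simp only [h]; norm_num
    rw [ht] at hv
    rw [e] at hj
    obtain ⟨t, ht, hts⟩ := par (A := x a) (B := x (a + 1)) (s := x' (I a + j)) (Or.inl ⟨x1, by
      rw [← hr.ex a]; exact hr.mx.monotone (by omega), by
      rw [← hr.ex (a + 1)]; exact hr.mx.monotone (by omega)⟩)
    refine ⟨t, ht, ?_⟩
    rw [hv, g]
    apply Complex.ext
    · simp [pt, vm, hts]
    · simp [pt, vm, hr.ey]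
  · have ht : tail ((a, b), k) = (a + 1, b) := by unfold tail; simp only [h]; norm_num
    rw [ht] at hv
    rw [e] at hj
    obtain ⟨t, ht, hts⟩ := par (A := y b) (B := y (b + 1)) (s := y' (K b + j)) (Or.inl ⟨y1, by
      rw [← hr.ey b]; exact hr.my.monotone (by omega), by
      rw [← hr.ey (b + 1)]; exact hr.my.monotone (by omega)⟩)
    refine ⟨t, ht, ?_⟩
    rw [hv, g]
    apply Complex.ext
    · simp [pt, vm, hr.ex]
    · simp [pt, vm, hts]
  · have ht : tail ((a, b), k) = (a + 1, b + 1) := by unfold tail; simp only [h]; norm_num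
    rw [ht] at hv
    rw [e] at hj
    obtain ⟨t, ht, hts⟩ := par (A := x (a + 1)) (B := x a) (s := x' (I (a + 1) + -j)) (Or.inr ⟨x1, by
      rw [← hr.ex a]; exact hr.mx.monotone (by omega), by
      rw [← hr.ex (a + 1)]; exact hr.mx.monotone (by omega)⟩)
    refine ⟨t, ht, ?_⟩
    rw [hv, g]
    apply Complex.ext
    · simp [pt, vm, hts]
    · simp [pt, vm, hr.ey]
  · have ht : tail ((a, b), k) = (a, b + 1) := by unfold tail; simp only [h]; norm_num
    rw [ht] at hv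
    rw [e] at hj
    obtain ⟨t, ht, hts⟩ := par (A := y (b + 1)) (B := y b) (s := y' (K (b + 1) + -j)) (Or.inr ⟨y1, by
      rw [← hr.ey b]; exact hr.my.monotone (by omega), by
      rw [← hr.ey (b + 1)]; exact hr.my.monotone (by omega)⟩)
    refine ⟨t, ht, ?_⟩
    rw [hv, g]
    apply Complex.ext
    · simp [pt, vm, hr.ex]
    · simp [pt, vm, hts]

/-- Points of a fine side lie on the coarse side. -/
lemma fine_sidePt (hx : StrictMono x) (hy : StrictMono y) (hr : Refi x y x' y' I K) (P : PType)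
    {n j : ℕ} (hj : j < H48.Q1.len I K (P.side n)) {t : ℝ} (ht : t ∈ Icc (0 : ℝ) 1) :
    ∃ t' ∈ Icc (0 : ℝ) 1, (P.refine hr.hI hr.hK).sidePt x' y' (P.L I K n + j) t =
      P.sidePt x y n t' := by
  obtain ⟨t1, h1, e1⟩ := fine_vert hx hy hr P hj.le
  obtain ⟨t2, h2, e2⟩ := fine_vert hx hy hr P (show j + 1 ≤ H48.Q1.len I K (P.side n) by omega)
  refine ⟨t1 + t * (t2 - t1), ⟨?_, ?_⟩, ?_⟩
  · nlinarith [h1.1, h2.1, ht.1, ht.2, mul_nonneg ht.1 h2.1,
      mul_nonneg (sub_nonneg.2 ht.2) h1.1]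
  · nlinarith [h1.2, h2.2, ht.1, ht.2, mul_nonneg ht.1 (sub_nonneg.2 h2.2),
      mul_nonneg (sub_nonneg.2 ht.2) (sub_nonneg.2 h1.2)]
  · rw [← add_assoc] at e2
    conv_lhs => unfold PType.sidePt
    rw [e1, e2]
    unfold PType.sidePt
    push_cast
    ring

lemma marks_ref (hr : Refi x y x' y' I K) (P : PType) :
    (P.refine hr.hI hr.hK).marks x' y' = P.marks x y := by
  unfold PType.marks
  have e0 := P.refine_vert_zero hr.hI hr.hK 0
  rw [P.L_zero] at e0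
  rw [P.refine_m, P.refine_vert_zero, e0, pt_vm hr, pt_vm hr]

/-- **Charts transfer to refinements.** -/
theorem Chart.refine (C : Chart P x y ψ W) (hx : StrictMono x) (hy : StrictMono y)
    (hr : Refi x y x' y' I K) : Chart (P.refine hr.hI hr.hK) x' y' ψ W := by
  have hO : Om (P.refine hr.hI hr.hK).Q x' y' = Om P.Q x y := om_ref hr P.Q
  refine ⟨?_, ?_, ?_, ?_, ?_⟩
  · rw [hO]; exact C.holo
  · rw [hO]; exact C.pos
  · intro n' hn' t ht hmk
    obtain ⟨n, j, hj, rfl⟩ := P.exists_loc hr.hI hr.hK n'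
    rw [P.refine_m, P.loc_lt hr.hI hr.hK hj] at hn'
    obtain ⟨t', ht', e⟩ := fine_sidePt hx hy hr P hj ht
    rw [e, marks_ref hr] at hmk
    rw [e, hO]
    exact C.free n hn' t' ht' hmk
  · intro n' hn' hn'' t ht hmk
    obtain ⟨n, j, hj, rfl⟩ := P.exists_loc hr.hI hr.hK n'
    rw [P.refine_N, P.loc_lt hr.hI hr.hK hj] at hn''
    rw [P.refine_m, ← not_lt, P.loc_lt hr.hI hr.hK hj, not_lt] at hn'
    obtain ⟨t', ht', e⟩ := fine_sidePt hx hy hr P hj ht
    rw [e, marks_ref hr] at hmk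
    rw [e, hO]
    exact C.wired n hn' hn'' t' ht' hmk
  · have e0 := P.refine_vert_zero hr.hI hr.hK 0
    rw [P.L_zero] at e0
    rw [hO, e0, pt_vm hr]
    exact C.pole

/-- Boundary values transfer to refinements. -/
theorem BV.refine {n : ℕ} {r D : ℝ} (h : BV P x y ψ n r D) (hr : Refi x y x' y' I K) :
    BV (P.refine hr.hI hr.hK) x' y' ψ (P.L I K n) r D := by
  have hO : Om (P.refine hr.hI hr.hK).Q x' y' = Om P.Q x y := om_ref hr P.Q
  have hd : ((P.refine hr.hI hr.hK).side (P.L I K n)).2 = (P.side n).2 := by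
    rw [P.refine_side_zero]; rfl
  constructor
  · rw [hO, P.refine_vert_zero, pt_vm hr]
    exact h.val
  · rw [hO, P.refine_vert_zero, pt_vm hr, hd]
    exact h.der

/-- One-point functions transfer to refinements. -/
theorem IsG.refine {pz : ℝ → ℝ} {n : ℕ} {g : ℝ} (h : IsG pz P x y n g)
    (hr : Refi x y x' y' I K) : IsG pz (P.refine hr.hI hr.hK) x' y' (P.L I K n) g := by
  intro R X' Y' hA
  have hA0 : App x y R (fun j => X' j ∘ I) (fun j => Y' j ∘ K) := by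
    refine ⟨⟨hA.app.R_top, ?_, ?_⟩, ?_⟩
    · intro i
      have := hA.app.X_lim (I i)
      rwa [hr.ex] at this
    · intro i
      have := hA.app.Y_lim (K i)
      rwa [hr.ey] at this
    · filter_upwards [hA.mono] with j hj
      exact ⟨hj.1.comp hr.hI, hj.2.comp hr.hK⟩
  have hRA : RefA I K (fun j => X' j ∘ I) (fun j => Y' j ∘ K) X' Y' :=
    ⟨fun _ _ => rfl, fun _ _ => rfl⟩
  refine (h R _ _ hA0).congr' ?_
  filter_upwards [hA.mono] with j hj
  rw [hRA.hh P hr.hI hr.hK hj.1 hj.2, hRA.lv P hr.hI hr.hK]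

end Pool.Agent.H29.M7
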