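import Mathlib
import Pool.Agent.H29.M7.Refine

set_option autoImplicit false
open Complex Metric Set Topology Filter

/-! Module M7 of Q1, J12: a new vertex at distance `ρ` from the beginning of a free side. -/

namespace Pool.Agent.H29.M7

open Pool.Agent.Q1.M4
open Pool.Agent.Q1.M5 (hh lv FlatV App StB2 StPz)
open Pool.Agent.H48.Q1 (ref Refi RefA vm exists_refine exists_new_h exists_new_v flatV_new)
open Pool.Agent.H91.Q1 (ne_of_between tendsto_shift)
open Pool.Agent.H75.Perc (dir dir_cases)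

variable {x y : ℤ → ℝ}

/-- new vertex on a horizontal free side -/
lemma new_h (P : PType) (hx : StrictMono x) (hy : StrictMono y) {n0 : ℕ} (hn0 : n0 < P.m)
    (hk : (P.side n0).2 % 2 = 0) {z : ℝ} (h1 : x (P.side n0).1.1 < z)
    (h2 : z < x ((P.side n0).1.1 + 1)) :
    ∃ (x' y' : ℤ → ℝ) (I K : ℤ → ℤ) (hr : Refi x y x' y' I K) (n' : ℕ),
      FlatV (P.refine hr.hI hr.hK) n' ∧ ((P.refine hr.hI hr.hK).side n').2 = (P.side n0).2 ∧
      pt x' y' ((P.refine hr.hI hr.hK).vert n') = ⟨z, y (P.vert n0).2⟩ ∧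
      ∀ (R : ℕ → ℝ) (X Y : ℕ → ℤ → ℤ) (Z : ℕ → ℤ), App x y R X Y →
        Tendsto (fun j => (Z j : ℝ) / R j) atTop (𝓝 z) → ∃ X' Y' : ℕ → ℤ → ℤ, App x' y' R X' Y' ∧
        ∀ᶠ j in atTop, hh (P.refine hr.hI hr.hK) (X' j) (Y' j)
          (lv (P.refine hr.hI hr.hK) (X' j) (Y' j) n') =
          hh P (X j) (Y j) (Z j, Y j (P.vert n0).2) := by
  obtain ⟨x', y', I, K, cx, cy, hr, hcx, -, hlift⟩ := exists_refine hx hy {z} ∅
    (by simpa using ⟨⟨_, h1⟩, _, h2⟩) (by simp)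
  have hz : x' (cx z) = z := hcx z (by simp)
  obtain ⟨c1, c2⟩ := hr.between_x (by rw [hz]; exact h1) (by rw [hz]; exact h2)
  obtain ⟨j, j1, j2, j3⟩ := exists_new_h P hr.hI hr.hK hk c1 c2
  refine ⟨x', y', I, K, hr, P.L I K n0 + j, flatV_new P hr.hI hr.hK hn0 j1 j2,
    P.refine_dir hr.hI hr.hK j2, ?_, ?_⟩
  · rw [j3]
    unfold pt
    simp only
    rw [hz, hr.ey]
  · intro R X Y Z hApp hZ
    obtain ⟨X', Y', hApp', hRA, hZx, -⟩ := hlift R X Y (fun _ => Z) (fun _ _ => 0) hApp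
      (fun w hw _ => by rw [Finset.mem_singleton.1 hw]; exact hZ) (by simp)
    refine ⟨X', Y', hApp', ?_⟩
    filter_upwards [hApp'.mono] with i hi
    rw [hRA.hh P hr.hI hr.hK hi.1 hi.2]
    unfold lv lpt
    rw [j3]
    simp only
    rw [hZx z (by simp) (ne_of_between hx h1 h2) i, hRA.eY]

/-- new vertex on a vertical free side -/
lemma new_v (P : PType) (hx : StrictMono x) (hy : StrictMono y) {n0 : ℕ} (hn0 : n0 < P.m)
    (hk : (P.side n0).2 % 2 = 1) {z : ℝ} (h1 : y (P.side n0).1.2 < z)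
    (h2 : z < y ((P.side n0).1.2 + 1)) :
    ∃ (x' y' : ℤ → ℝ) (I K : ℤ → ℤ) (hr : Refi x y x' y' I K) (n' : ℕ),
      FlatV (P.refine hr.hI hr.hK) n' ∧ ((P.refine hr.hI hr.hK).side n').2 = (P.side n0).2 ∧
      pt x' y' ((P.refine hr.hI hr.hK).vert n') = ⟨x (P.vert n0).1, z⟩ ∧
      ∀ (R : ℕ → ℝ) (X Y : ℕ → ℤ → ℤ) (Z : ℕ → ℤ), App x y R X Y →
        Tendsto (fun j => (Z j : ℝ) / R j) atTop (𝓝 z) → ∃ X' Y' : ℕ → ℤ → ℤ, App x' y' R X' Y' ∧
        ∀ᶠ j in atTop, hh (P.refine hr.hI hr.hK) (X' j) (Y' j)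
          (lv (P.refine hr.hI hr.hK) (X' j) (Y' j) n') =
          hh P (X j) (Y j) (X j (P.vert n0).1, Z j) := by
  obtain ⟨x', y', I, K, cx, cy, hr, -, hcy, hlift⟩ := exists_refine hx hy ∅ {z}
    (by simp) (by simpa using ⟨⟨_, h1⟩, _, h2⟩)
  have hz : y' (cy z) = z := hcy z (by simp)
  obtain ⟨c1, c2⟩ := hr.between_y (by rw [hz]; exact h1) (by rw [hz]; exact h2)
  obtain ⟨j, j1, j2, j3⟩ := exists_new_v P hr.hI hr.hK hk c1 c2
  refine ⟨x', y', I, K, hr, P.L I K n0 + j, flatV_new P hr.hI hr.hK hn0 j1 j2,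
    P.refine_dir hr.hI hr.hK j2, ?_, ?_⟩
  · rw [j3]
    unfold pt
    simp only
    rw [hz, hr.ex]
  · intro R X Y Z hApp hZ
    obtain ⟨X', Y', hApp', hRA, -, hZy⟩ := hlift R X Y (fun _ _ => 0) (fun _ => Z) hApp (by simp)
      (fun w hw _ => by rw [Finset.mem_singleton.1 hw]; exact hZ)
    refine ⟨X', Y', hApp', ?_⟩
    filter_upwards [hApp'.mono] with i hi
    rw [hRA.hh P hr.hI hr.hK hi.1 hi.2]
    unfold lv lpt
    rw [j3]
    simp only
    rw [hZy z (by simp) (ne_of_between hy h1 h2) i, hRA.eX]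

/-- **A new vertex** at distance `ρ` from the beginning of the free side `n0`. -/
theorem exists_new (P : PType) (hx : StrictMono x) (hy : StrictMono y) {n0 : ℕ} (hn0 : n0 < P.m)
    {ρ : ℝ} (hρ : 0 < ρ) (hρ1 : ρ < len x y (P.side n0)) :
    ∃ (x' y' : ℤ → ℝ) (I K : ℤ → ℤ) (hr : Refi x y x' y' I K) (n' : ℕ),
      FlatV (P.refine hr.hI hr.hK) n' ∧ ((P.refine hr.hI hr.hK).side n').2 = (P.side n0).2 ∧
      pt x' y' ((P.refine hr.hI hr.hK).vert n') = pt x y (P.vert n0) + ρ * udir (P.side n0).2 ∧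
      ∀ (R : ℕ → ℝ) (X Y : ℕ → ℤ → ℤ), App x y R X Y → ∃ X' Y' : ℕ → ℤ → ℤ, App x' y' R X' Y' ∧
        ∀ᶠ j in atTop, hh (P.refine hr.hI hr.hK) (X' j) (Y' j)
          (lv (P.refine hr.hI hr.hK) (X' j) (Y' j) n') =
          hh P (X j) (Y j) (lv P (X j) (Y j) n0 + ⌊ρ * R j⌋ • dir (P.side n0).2) := by
  have hv : P.vert n0 = tail (P.side n0) := rfl
  obtain ⟨⟨⟨a, b⟩, k⟩, hs⟩ : ∃ s, P.side n0 = s := ⟨_, rfl⟩
  have hlen : ρ < len x y ((a, b), k) := by rw [← hs]; exact hρ1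
  unfold len at hlen
  simp only at hlen
  rcases dir_cases k with ⟨h, e⟩ | ⟨h, e⟩ | ⟨h, e⟩ | ⟨h, e⟩
  · have ht : P.vert n0 = (a, b) := by rw [hv, hs]; unfold tail; simp only [h]; norm_num
    rw [if_pos (by omega)] at hlen
    obtain ⟨x', y', I, K, hr, n', h1, h2, h3, h4⟩ := new_h P hx hy hn0 (z := x a + ρ)
      (by rw [hs]; simp only; omega) (by rw [hs]; simp only; linarith)
      (by rw [hs]; simp only; linarith)
    refine ⟨x', y', I, K, hr, n', h1, h2, ?_, ?_⟩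
    · rw [h3, ht, hs]
      have : udir k = 1 := by unfold udir; rw [e]; apply Complex.ext <;> simp
      rw [this]
      apply Complex.ext <;> simp [pt]
    · intro R X Y hApp
      have hZ := tendsto_shift (ρ := ρ) hApp.app.R_top 1 (hApp.app.X_lim a)
      obtain ⟨X', Y', h5, h6⟩ := h4 R X Y (fun j => X j a + 1 * ⌊ρ * R j⌋) hApp (by simpa using hZ)
      refine ⟨X', Y', h5, h6.mono fun j hj => hj.trans ?_⟩
      rw [hs, e]
      unfold lv lpt
      rw [ht]
      congr 1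
      ext <;> simp
  · have ht : P.vert n0 = (a + 1, b) := by rw [hv, hs]; unfold tail; simp only [h]; norm_num
    rw [if_neg (by omega)] at hlen
    obtain ⟨x', y', I, K, hr, n', h1, h2, h3, h4⟩ := new_v P hx hy hn0 (z := y b + ρ)
      (by rw [hs]; simp only; omega) (by rw [hs]; simp only; linarith)
      (by rw [hs]; simp only; linarith)
    refine ⟨x', y', I, K, hr, n', h1, h2, ?_, ?_⟩
    · rw [h3, ht, hs]
      have : udir k = Complex.I := by unfold udir; rw [e]; apply Complex.ext <;> simp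
      rw [this]
      apply Complex.ext <;> simp [pt]
    · intro R X Y hApp
      have hZ := tendsto_shift (ρ := ρ) hApp.app.R_top 1 (hApp.app.Y_lim b)
      obtain ⟨X', Y', h5, h6⟩ := h4 R X Y (fun j => Y j b + 1 * ⌊ρ * R j⌋) hApp (by simpa using hZ)
      refine ⟨X', Y', h5, h6.mono fun j hj => hj.trans ?_⟩
      rw [hs, e]
      unfold lv lpt
      rw [ht]
      congr 1
      ext <;> simp
  · have ht : P.vert n0 = (a + 1, b + 1) := by rw [hv, hs]; unfold tail; simp only [h]; norm_num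
    rw [if_pos (by omega)] at hlen
    obtain ⟨x', y', I, K, hr, n', h1, h2, h3, h4⟩ := new_h P hx hy hn0
      (z := x (a + 1) + ((-1 : ℤ) : ℝ) * ρ)
      (by rw [hs]; simp only; omega) (by rw [hs]; push_cast; linarith)
      (by rw [hs]; push_cast; linarith)
    refine ⟨x', y', I, K, hr, n', h1, h2, ?_, ?_⟩
    · rw [h3, ht, hs]
      have : udir k = -1 := by unfold udir; rw [e]; apply Complex.ext <;> simp
      rw [this]
      apply Complex.ext <;> simp [pt]
    · intro R X Y hApp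
      have hZ := tendsto_shift (ρ := ρ) hApp.app.R_top (-1) (hApp.app.X_lim (a + 1))
      obtain ⟨X', Y', h5, h6⟩ := h4 R X Y (fun j => X j (a + 1) + -1 * ⌊ρ * R j⌋) hApp hZ
      refine ⟨X', Y', h5, h6.mono fun j hj => hj.trans ?_⟩
      rw [hs, e]
      unfold lv lpt
      rw [ht]
      congr 1
      ext <;> simp
  · have ht : P.vert n0 = (a, b + 1) := by rw [hv, hs]; unfold tail; simp only [h]; norm_num
    rw [if_neg (by omega)] at hlen
    obtain ⟨x', y', I, K, hr, n', h1, h2, h3, h4⟩ := new_v P hx hy hn0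
      (z := y (b + 1) + ((-1 : ℤ) : ℝ) * ρ)
      (by rw [hs]; simp only; omega) (by rw [hs]; push_cast; linarith)
      (by rw [hs]; push_cast; linarith)
    refine ⟨x', y', I, K, hr, n', h1, h2, ?_, ?_⟩
    · rw [h3, ht, hs]
      have : udir k = -Complex.I := by unfold udir; rw [e]; apply Complex.ext <;> simp
      rw [this]
      apply Complex.ext <;> simp [pt]
    · intro R X Y hApp
      have hZ := tendsto_shift (ρ := ρ) hApp.app.R_top (-1) (hApp.app.Y_lim (b + 1))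
      obtain ⟨X', Y', h5, h6⟩ := h4 R X Y (fun j => Y j (b + 1) + -1 * ⌊ρ * R j⌋) hApp hZ
      refine ⟨X', Y', h5, h6.mono fun j hj => hj.trans ?_⟩
      rw [hs, e]
      unfold lv lpt
      rw [ht]
      congr 1
      ext <;> simp

end Pool.Agent.H29.M7
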