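import Mathlib
import Pool.Agent.H29.M7.NewV

set_option autoImplicit false
open Complex Metric Set Topology Filter

/-! Module M7 of Q1, J12: the chart near a flat pole. -/

namespace Pool.Agent.H29.M7

open Pool.Agent.Q1.M4
open Pool.Agent.Q1.M5 (hh lv FlatV App StB2 StPz)
open Pool.Agent.H83.Lo (UH extMap mem_UH)

variable {P : PType} {x y : ℤ → ℝ} {ψ : ℂ → ℂ} {W : ℝ}

/-- The mark `0` (the pole) is a flat vertex. -/
def Flat0 (P : PType) : Prop := ((P.side 0).2 - (P.side (P.N - 1)).2) % 4 = 0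

lemma side_N (P : PType) : Eqv (P.side P.N) (P.side 0) := by
  have : P.side P.N = (P.s0.1, P.s0.2 + 4) := P.period
  rw [this]
  exact ⟨rfl, by simp [PType.side]⟩

lemma sidePt_N (P : PType) (x y : ℤ → ℝ) (t : ℝ) : P.sidePt x y P.N t = P.sidePt x y 0 t := by
  rw [P.sidePt_eq, P.sidePt_eq, P.vert_N, (side_N P).len, (side_N P).udir]

/-- The half disc at a flat pole. -/
theorem half_disc_pole (hx : StrictMono x) (hy : StrictMono y) (hk : Flat0 P) : ∃ ρ : ℝ, 0 < ρ ∧
    (∀ z ∈ ball (pt x y (P.vert 0)) ρ, z ∈ Om P.Q x y ↔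
      0 < ((z - pt x y (P.vert 0)) / udir (P.side 0).2).im) ∧
    ∀ s : ℝ, |s| < ρ → (s = 0 ∨
      (0 < s ∧ pt x y (P.vert 0) + s * udir (P.side 0).2 =
        P.sidePt x y 0 (s / len x y (P.side 0)) ∧
        s / len x y (P.side 0) ∈ Ioo (0 : ℝ) 1) ∨
      (s < 0 ∧ pt x y (P.vert 0) + s * udir (P.side 0).2 =
        P.sidePt x y (P.N - 1) (1 - -s / len x y (P.side (P.N - 1))) ∧
        1 - -s / len x y (P.side (P.N - 1)) ∈ Ioo (0 : ℝ) 1)) := by
  have hN : 0 < P.N := P.hm0.trans P.hmN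
  have e0 : P.N - 1 + 1 = P.N := by omega
  have h1 : (P.side (P.N - 1 + 1)).2 = (P.side (P.N - 1)).2 := by
    have h2 := P.turn (P.N - 1)
    have h3 := (side_N P).2
    rw [e0] at h2 ⊢
    unfold Flat0 at hk
    omega
  obtain ⟨ρ, hρ, h2, h3⟩ := half_disc_flat hx hy h1
  rw [e0] at h2 h3
  have hu : udir (P.side (P.N - 1)).2 = udir (P.side 0).2 := by
    rw [← h1, e0, (side_N P).udir]
  rw [P.vert_N, hu] at h2 h3
  refine ⟨ρ, hρ, h2, ?_⟩
  intro s hs
  have := h3 s hs
  rw [sidePt_N, (side_N P).len] at this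
  exact this

/-- Boundary values and derivatives from a local model. -/
theorem bv_of_local {Ω : Set ℂ} {p e d : ℂ} (he : e ≠ 0) {s : ℝ} {q : ℂ → ℂ}
    (hq : HasDerivAt q d s) (heq : ∀ᶠ z in 𝓝[Ω] (p + s * e), q ((z - p) / e) = ψ z)
    (hp : p + s * e ∉ Ω) : Tendsto ψ (𝓝[Ω] (p + s * e)) (𝓝 (q s)) ∧
    Tendsto (fun z => (ψ z - q s) / (z - (p + s * e))) (𝓝[Ω] (p + s * e)) (𝓝 (d / e)) := by
  have h1 : Tendsto (fun z : ℂ => (z - p) / e) (𝓝[Ω] (p + s * e)) (𝓝[≠] (s : ℂ)) := by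
    refine tendsto_nhdsWithin_of_tendsto_nhds_of_eventually_within _ ?_ ?_
    · have : Continuous fun z : ℂ => (z - p) / e := by fun_prop
      have h5 := this.tendsto (p + s * e)
      rw [add_sub_cancel_left, mul_div_assoc, div_self he, mul_one] at h5
      exact h5.mono_left nhdsWithin_le_nhds
    · filter_upwards [self_mem_nhdsWithin] with z hz h8
      rw [mem_singleton_iff, div_eq_iff he, sub_eq_iff_eq_add'] at h8
      exact hp (h8 ▸ hz)
  constructor
  · have h3 := (hq.continuousAt.tendsto.mono_left (nhdsWithin_le_nhds (s := {(s : ℂ)}ᶜ))).comp h1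
    exact h3.congr' heq
  · have h3 := ((hasDerivAt_iff_tendsto_slope.1 hq).comp h1).div_const e
    refine h3.congr' ?_
    filter_upwards [heq] with z hz
    simp only [Function.comp_apply]
    rw [slope_def_field, hz, div_div]
    congr 1
    field_simp
    ring

/-- The local model of `-1/ψ` at a flat pole. -/
theorem Chart.pole_model (C : Chart P x y ψ W) (hx : StrictMono x) (hy : StrictMono y)
    (hk : Flat0 P) : ∃ (ρ : ℝ) (E : ℂ → ℂ), 0 < ρ ∧
      (∀ z ∈ ball (pt x y (P.vert 0)) ρ, z ∈ Om P.Q x y ↔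
        0 < ((z - pt x y (P.vert 0)) / udir (P.side 0).2).im) ∧
      DifferentiableOn ℂ E (ball 0 ρ) ∧
      (∀ w ∈ ball (0 : ℂ) ρ, 0 < w.im → pt x y (P.vert 0) + udir (P.side 0).2 * w ∈ Om P.Q x y ∧
        E w = -(ψ (pt x y (P.vert 0) + udir (P.side 0).2 * w))⁻¹) ∧
      (∀ s : ℝ, |s| < ρ → (E s).im = 0 ∧ ∃ a : ℝ, 0 < a ∧ HasDerivAt E a s) ∧ E 0 = 0 := by
  obtain ⟨ρ, hρ, hhalf, hsides⟩ := half_disc_pole hx hy hk
  have hmN := P.hmN
  have hm0 := P.hm0
  have hpole := C.pole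
  set p := pt x y (P.vert 0) with hp
  set e := udir (P.side 0).2 with he
  have he0 : e ≠ 0 := udir_ne _
  have hlim : ∀ s : ℝ, |s| < ρ → s ≠ 0 → ∃ r : ℝ,
      Tendsto ψ (𝓝[Om P.Q x y] (p + s * e)) (𝓝 (r : ℂ)) := by
    intro s hs hs0
    rcases hsides s hs with h | ⟨h, h1, h2⟩ | ⟨h, h1, h2⟩
    · exact absurd h hs0
    · rw [h1]
      obtain ⟨r, -, hr⟩ := C.free 0 hm0 _ (Ioo_subset_Icc_self h2)
        (P.not_mem_marks hx hy (by omega) (Ioo_subset_Icc_self h2)
        (fun h => absurd h h2.1.ne') (fun h => absurd h h2.2.ne))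
      exact ⟨r, hr⟩
    · rw [h1]
      obtain ⟨r, -, hr⟩ := C.wired (P.N - 1) (by omega) (by omega) _ (Ioo_subset_Icc_self h2)
        (P.not_mem_marks hx hy (by omega) (Ioo_subset_Icc_self h2)
        (fun h => absurd h h2.1.ne') (fun h => absurd h h2.2.ne))
      exact ⟨r, hr⟩
  -- `ψ` is large near the pole
  obtain ⟨ρ₁, hρ₁, hle, hbig⟩ : ∃ ρ₁ : ℝ, 0 < ρ₁ ∧ ρ₁ ≤ ρ ∧
      ∀ z ∈ ball p ρ₁ ∩ Om P.Q x y, 1 ≤ ‖ψ z‖ := by
    have h1 := hpole.eventually_ge_atTop 1
    rw [eventually_nhdsWithin_iff, Metric.eventually_nhds_iff_ball] at h1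
    obtain ⟨ε, hε, h3⟩ := h1
    exact ⟨min ε ρ, lt_min hε hρ, min_le_right _ _,
      fun z hz => h3 z (ball_subset_ball (min_le_left _ _) hz.1) hz.2⟩
  have hψ0 : ∀ z ∈ Om P.Q x y, ψ z ≠ 0 := by
    intro z hz h0
    have := C.pos z hz
    rw [h0] at this
    simp at this
  have h0lim : Tendsto (fun z => -(ψ z)⁻¹) (𝓝[Om P.Q x y] p) (𝓝 0) := by
    rw [tendsto_zero_iff_norm_tendsto_zero]
    have := tendsto_inv_atTop_zero.comp hpole
    refine this.congr fun z => ?_
    simp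
  obtain ⟨E, hE1, hE2, hE3⟩ := local_ext (Ω := Om P.Q x y) (p := p) (e := e) (ρ := ρ₁)
    (norm_udir _) (fun z hz => hhalf z (ball_subset_ball hle hz)) (f := fun z => -(ψ z)⁻¹)
    ((C.holo.inv hψ0).neg) (by
      intro z hz
      rw [neg_im, inv_im]
      have h1 := C.pos z hz
      have h2 : 0 < normSq (ψ z) := normSq_pos.2 (hψ0 z hz)
      rw [neg_div, neg_neg]
      exact div_pos h1 h2) (by
      intro s hs
      rcases eq_or_ne s 0 with rfl | hs0
      · rw [ofReal_zero, zero_mul, add_zero]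
        have := (Complex.continuous_im.tendsto (0 : ℂ)).comp h0lim
        rwa [zero_im] at this
      · obtain ⟨r, hr⟩ := hlim s (hs.trans_le hle) hs0
        -- the point is a boundary point
        have hnb : (𝓝[Om P.Q x y] (p + s * e)).NeBot := by
          rw [← mem_closure_iff_nhdsWithin_neBot]
          have hz : p + s * e ∈ ball p ρ₁ := by
            rw [mem_ball, dist_eq_norm, add_sub_cancel_left, norm_mul, norm_udir, mul_one, norm_real,
              Real.norm_eq_abs]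
            exact hs
          rcases hsides s (hs.trans_le hle) with h | ⟨h, h1, h2⟩ | ⟨h, h1, h2⟩
          · exact absurd h hs0
          · rw [h1]
            exact frontier_subset_closure (P.sidePt_mem_frontier hx hy _ (Ioo_subset_Icc_self h2))
          · rw [h1]
            exact frontier_subset_closure (P.sidePt_mem_frontier hx hy _ (Ioo_subset_Icc_self h2))
        have hr1 : 1 ≤ ‖(r : ℂ)‖ := by
          refine ge_of_tendsto hr.norm ?_
          have h6 : ∀ᶠ z in 𝓝[Om P.Q x y] (p + s * e), z ∈ ball p ρ₁ := by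
            apply mem_nhdsWithin_of_mem_nhds
            apply isOpen_ball.mem_nhds
            rw [mem_ball, dist_eq_norm, add_sub_cancel_left, norm_mul, norm_udir, mul_one, norm_real,
              Real.norm_eq_abs]
            exact hs
          filter_upwards [h6, self_mem_nhdsWithin] with z hz hz'
          exact hbig z ⟨hz, hz'⟩
        have hr0 : (r : ℂ) ≠ 0 := by
          intro h0
          rw [h0, norm_zero] at hr1
          linarith
        have h7 := (hr.inv₀ hr0).neg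
        have h8 := (Complex.continuous_im.tendsto _).comp h7
        have h9 : (-((r : ℂ))⁻¹).im = 0 := by
          rw [← ofReal_inv, neg_im, ofReal_im, neg_zero]
        rw [h9] at h8
        exact h8)
  refine ⟨ρ₁, E, hρ₁, fun z hz => hhalf z (ball_subset_ball hle hz), hE1, hE2, hE3, ?_⟩
  -- `E 0 = 0`
  have hs : |(0 : ℝ)| < ρ₁ := by rw [abs_zero]; exact hρ₁
  obtain ⟨-, a, -, ha⟩ := hE3 0 hs
  have h3 := (h0lim.comp (by
    have := tendsto_emb (e := e) hs (fun w hw hi => (hE2 w hw hi).1)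
    rwa [ofReal_zero, zero_mul, add_zero] at this))
  have h4 : Tendsto E (𝓝[UH] ((0 : ℝ) : ℂ)) (𝓝 (E ((0 : ℝ) : ℂ))) :=
    ha.continuousAt.tendsto.mono_left nhdsWithin_le_nhds
  rw [ofReal_zero] at h4
  have h5 : Tendsto E (𝓝[UH] (0 : ℂ)) (𝓝 0) := by
    refine h3.congr' ?_
    have h6 : ∀ᶠ w in 𝓝[UH] (0 : ℂ), w ∈ ball (0 : ℂ) ρ₁ :=
      mem_nhdsWithin_of_mem_nhds (isOpen_ball.mem_nhds (mem_ball_self hρ₁))
    filter_upwards [h6, self_mem_nhdsWithin] with w hw hw'
    exact (hE2 w hw hw').2.symm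
  have := neBot_UH 0
  rw [ofReal_zero] at this
  exact tendsto_nhds_unique h4 h5

/-- **The chart near a flat pole**: at distance `s` from the pole, `D / (W - r) ~ 1 / s`. -/
theorem Chart.pole_asymp (C : Chart P x y ψ W) (hx : StrictMono x) (hy : StrictMono y)
    (hk : Flat0 P) : ∃ (ρ : ℝ) (r D : ℝ → ℝ), 0 < ρ ∧
      (∀ s : ℝ, 0 < s → s < ρ →
        Tendsto ψ (𝓝[Om P.Q x y] (pt x y (P.vert 0) + s * udir (P.side 0).2)) (𝓝 (r s : ℂ)) ∧
        Tendsto (fun z => (ψ z - r s) / (z - (pt x y (P.vert 0) + s * udir (P.side 0).2)))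
          (𝓝[Om P.Q x y] (pt x y (P.vert 0) + s * udir (P.side 0).2))
          (𝓝 (D s / udir (P.side 0).2))) ∧
      Tendsto (fun s => s * (D s / (W - r s))) (𝓝[>] 0) (𝓝 1) := by
  obtain ⟨ρ, E, hρ, hhalf, hEd, hE, hEr, hE0⟩ := C.pole_model hx hy hk
  set p := pt x y (P.vert 0) with hp
  set e := udir (P.side 0).2 with he
  have he0 : e ≠ 0 := udir_ne _
  have hs0 : |(0 : ℝ)| < ρ := by rw [abs_zero]; exact hρ
  obtain ⟨-, a, ha, hda⟩ := hEr 0 hs0
  rw [ofReal_zero] at hda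
  -- limits along the positive reals
  have hto : Tendsto (fun s : ℝ => (s : ℂ)) (𝓝[>] 0) (𝓝[≠] 0) := by
    refine tendsto_nhdsWithin_of_tendsto_nhds_of_eventually_within _ ?_ ?_
    · have := (Complex.continuous_ofReal.tendsto (0 : ℝ))
      rw [ofReal_zero] at this
      exact this.mono_left nhdsWithin_le_nhds
    · filter_upwards [self_mem_nhdsWithin] with s hs
      have hs : 0 < s := hs
      intro h
      rw [mem_singleton_iff] at h
      exact hs.ne' (by exact_mod_cast h)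
  have hquot : Tendsto (fun s : ℝ => (E s).re / s) (𝓝[>] 0) (𝓝 a) := by
    have h1 := (hasDerivAt_iff_tendsto_slope.1 hda).comp hto
    have h2 := (Complex.continuous_re.tendsto _).comp h1
    rw [ofReal_re] at h2
    refine h2.congr fun s => ?_
    simp only [Function.comp_apply]
    rw [slope_def_field, hE0, sub_zero, sub_zero, div_ofReal_re]
  have hval : Tendsto (fun s : ℝ => (E s).re) (𝓝[>] 0) (𝓝 0) := by
    have h1 := (hda.continuousAt.tendsto.mono_left (nhdsWithin_le_nhds (s := {(0 : ℂ)}ᶜ))).comp hto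
    have h2 := (Complex.continuous_re.tendsto _).comp h1
    rw [hE0, zero_re] at h2
    exact h2
  have hdv : Tendsto (fun s : ℝ => (deriv E s).re) (𝓝[>] 0) (𝓝 a) := by
    have h0b : (0 : ℂ) ∈ ball (0 : ℂ) ρ := mem_ball_self hρ
    have h1 : ContinuousAt (deriv E) 0 :=
      ((hEd.deriv isOpen_ball).differentiableAt (isOpen_ball.mem_nhds h0b)).continuousAt
    have h2 := (h1.tendsto.mono_left (nhdsWithin_le_nhds (s := {(0 : ℂ)}ᶜ))).comp hto
    have h3 := (Complex.continuous_re.tendsto _).comp h2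
    rw [hda.deriv, ofReal_re] at h3
    exact h3
  -- a radius where `E` does not vanish
  obtain ⟨ρ₂, hρ₂, hle, hne⟩ : ∃ ρ₂ : ℝ, 0 < ρ₂ ∧ ρ₂ ≤ ρ ∧ ∀ s : ℝ, 0 < s → s < ρ₂ →
      (E s).re ≠ 0 := by
    have h1 : ∀ᶠ s : ℝ in 𝓝[>] 0, (E s).re / s ≠ 0 := hquot.eventually_ne ha.ne'
    rw [eventually_nhdsWithin_iff, Metric.eventually_nhds_iff_ball] at h1
    obtain ⟨ε, hε, h2⟩ := h1
    refine ⟨min ε ρ, lt_min hε hρ, min_le_right _ _, ?_⟩
    intro s hs hsε h3
    apply h2 s ?_ hs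
    · rw [h3, zero_div]
    · rw [mem_ball_zero_iff, Real.norm_eq_abs, abs_of_pos hs]
      exact hsε.trans_le (min_le_left _ _)
  refine ⟨ρ₂, fun s => -((E s).re)⁻¹, fun s => (deriv E s).re / (E s).re ^ 2, hρ₂, ?_, ?_⟩
  · intro s hs hsρ
    have hsρ' : s < ρ := hsρ.trans_le hle
    have habs : |s| < ρ := by rw [abs_of_pos hs]; exact hsρ'
    obtain ⟨hi, b, hb, hdb⟩ := hEr s habs
    have hEs : E s = ((E s).re : ℂ) := by
      apply Complex.ext
      · rw [ofReal_re]
      · rw [ofReal_im, hi]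
    have hEs0 : E s ≠ 0 := by
      rw [hEs]
      exact_mod_cast hne s hs hsρ
    have hq : HasDerivAt (fun w => -(E w)⁻¹) (b / (E s) ^ 2) s := by
      have := (hdb.inv hEs0).neg
      rw [show (b : ℂ) / (E s) ^ 2 = -(-b / (E s) ^ 2) by ring]
      exact this
    have hzb : p + s * e ∈ ball p ρ := by
      rw [mem_ball, dist_eq_norm, add_sub_cancel_left, norm_mul, norm_udir, mul_one, norm_real,
        Real.norm_eq_abs]
      exact habs
    have hnot : p + s * e ∉ Om P.Q x y := by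
      rw [hhalf _ hzb, add_sub_cancel_left, mul_div_assoc, div_self he0, mul_one, ofReal_im]
      exact lt_irrefl _
    obtain ⟨h1, h2⟩ := bv_of_local (ψ := ψ) (Ω := Om P.Q x y) (p := p) (e := e) he0 hq (by
      have h6 : ∀ᶠ z in 𝓝[Om P.Q x y] (p + s * e), z ∈ ball p ρ :=
        mem_nhdsWithin_of_mem_nhds (isOpen_ball.mem_nhds hzb)
      filter_upwards [h6, self_mem_nhdsWithin] with z hz hz'
      have h7 := (hhalf z hz).1 hz'
      have h8 : (z - p) / e ∈ ball (0 : ℂ) ρ := by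
        rw [mem_ball_zero_iff, norm_div, norm_udir, div_one, ← dist_eq_norm]
        exact hz
      rw [(hE _ h8 h7).2, inv_neg, inv_inv, neg_neg]
      congr 1
      field_simp
      ring) hnot
    have e1 : -(E s)⁻¹ = ((-((E s).re)⁻¹ : ℝ) : ℂ) := by
      conv_lhs => rw [hEs]
      push_cast
      ring
    rw [e1] at h1 h2
    refine ⟨h1, ?_⟩
    have e2 : (b : ℂ) / (E s) ^ 2 = (((deriv E s).re / (E s).re ^ 2 : ℝ) : ℂ) := by
      rw [hdb.deriv, ofReal_re]
      conv_lhs => rw [hEs]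
      push_cast
      ring
    rw [e2] at h2
    exact h2
  · have h1 : Tendsto (fun s : ℝ => (deriv E s).re / ((E s).re / s * (W * (E s).re + 1)))
        (𝓝[>] 0) (𝓝 (a / (a * (W * 0 + 1)))) := by
      refine hdv.div (hquot.mul ((hval.const_mul W).add_const 1)) ?_
      rw [mul_zero, zero_add, mul_one]
      exact ha.ne'
    rw [mul_zero, zero_add, mul_one, div_self ha.ne'] at h1
    refine h1.congr' ?_
    have h2 : ∀ᶠ s : ℝ in 𝓝[>] 0, s < ρ₂ :=
      (eventually_lt_nhds hρ₂).filter_mono nhdsWithin_le_nhds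
    have h3 : ∀ᶠ s : ℝ in 𝓝[>] 0, W * (E s).re + 1 ≠ 0 := by
      have := (hval.const_mul W).add_const 1
      rw [mul_zero, zero_add] at this
      exact this.eventually_ne one_ne_zero
    filter_upwards [h2, h3, self_mem_nhdsWithin] with s hs hs3 hs0
    have hs0 : 0 < s := hs0
    have hE1 := hne s hs0 hs
    have e3 : W - -((E s).re)⁻¹ = (W * (E s).re + 1) / (E s).re := by
      field_simp
      ring
    rw [e3]
    field_simp

end Pool.Agent.H29.M7
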