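import Mathlib
import Pool.Agent.H29.M7.Pole
import Pool.Agent.H29.Q1.MarkLocal

set_option autoImplicit false
open Complex Metric Set Topology Filter

/-! Module M7 of Q1, J12: **the explicit form of the normalised one-point function** of a polygon with
a flat mark `0`. -/

namespace Pool.Agent.H29.M7

open Pool.Agent.Q1.M4
open Pool.Agent.Q1.M5 (hh lv FlatV App StB2 StPz)
open Pool.Agent.H48.Q1 (Refi)
open Pool.Agent.H75.Perc (dir)

variable {P : PType} {x y : ℤ → ℝ} {ψ : ℂ → ℂ} {W : ℝ}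

/-- The canonical approximating sequence. -/
theorem exists_app1 (hx : StrictMono x) (hy : StrictMono y) :
    ∃ (X Y : ℕ → ℤ → ℤ), App x y (fun j => (j : ℝ) + 1) X Y := by
  have hR : Tendsto (fun j : ℕ => (j : ℝ) + 1) atTop atTop :=
    tendsto_atTop_add_const_right _ _ tendsto_natCast_atTop_atTop
  have hinv : Tendsto (fun j : ℕ => ((j : ℝ) + 1)⁻¹) atTop (𝓝 0) :=
    tendsto_inv_atTop_zero.comp hR
  have key : ∀ z : ℤ → ℝ, ∀ i, Tendsto (fun j : ℕ => ((⌊z i * ((j : ℝ) + 1)⌋ + i : ℤ) : ℝ) /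
      ((j : ℝ) + 1)) atTop (𝓝 (z i)) := by
    intro z i
    have h1 := (H91.Q1.tendsto_floor hR (ρ := z i)).add (hinv.const_mul (i : ℝ))
    rw [mul_zero, add_zero] at h1
    refine h1.congr fun j => ?_
    push_cast
    ring
  have mono : ∀ z : ℤ → ℝ, StrictMono z → ∀ j : ℕ,
      StrictMono (fun i : ℤ => ⌊z i * ((j : ℝ) + 1)⌋ + i) := by
    intro z hz j a b hab
    have h1 : ⌊z a * ((j : ℝ) + 1)⌋ ≤ ⌊z b * ((j : ℝ) + 1)⌋ :=
      Int.floor_le_floor (mul_le_mul_of_nonneg_right (hz hab).le (by positivity))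
    simp only
    omega
  exact ⟨fun j i => ⌊x i * ((j : ℝ) + 1)⌋ + i, fun j i => ⌊y i * ((j : ℝ) + 1)⌋ + i,
    ⟨hR, key x, key y⟩, Eventually.of_forall fun j => ⟨mono x hx j, mono y hy j⟩⟩

/-- The one-point function near the pole. -/
theorem near_pole {pz : ℝ → ℝ} (hpz : StPz pz) (hB2 : StB2 pz) (hSeq : StSeq) (P : PType)
    (hx : StrictMono x) (hy : StrictMono y) (C : Chart P x y ψ W) (h0 : Flat0 P) {n : ℕ}
    (hn : FlatV P n) {K : ℝ} (hK : ∀ n, FlatV P n → ∀ r D g : ℝ, BV P x y ψ n r D →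
      IsG pz P x y n g → g = K * (D / (W - r)) ^ (1 / 3 : ℝ)) :
    ∃ (ρ : ℝ) (q : ℝ → ℝ), 0 < ρ ∧ Tendsto (fun s => s * q s) (𝓝[>] 0) (𝓝 1) ∧
      ∀ s : ℝ, 0 < s → s < ρ → 0 < q s ∧ ∀ (R : ℕ → ℝ) (X Y : ℕ → ℤ → ℤ), App x y R X Y →
        Tendsto (fun j => hh P (X j) (Y j) (lv P (X j) (Y j) 0 + ⌊s * R j⌋ • dir (P.side 0).2) /
          pz (R j)) atTop (𝓝 (K * (q s) ^ (1 / 3 : ℝ))) := by
  obtain ⟨ρ, r, D, hρ, hbv, hlim⟩ := C.pole_asymp hx hy h0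
  refine ⟨min ρ (len x y (P.side 0)), fun s => D s / (W - r s),
    lt_min hρ (side_len_pos hx hy _), hlim, ?_⟩
  intro s hs hsρ
  obtain ⟨x', y', I, K', hr, n', hflat, hdir, hpt, hApp⟩ := exists_new P hx hy (n0 := 0) P.hm0 hs
    (hsρ.trans_le (min_le_right _ _))
  have hO : Om (P.refine hr.hI hr.hK).Q x' y' = Om P.Q x y := om_ref hr P.Q
  obtain ⟨v1, v2⟩ := hbv s hs (hsρ.trans_le (min_le_left _ _))
  have hb : BV (P.refine hr.hI hr.hK) x' y' ψ n' (r s) (D s) := by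
    constructor
    · rw [hO, hpt]; exact v1
    · rw [hO, hpt, hdir]; exact v2
  have C' := C.refine hx hy hr
  obtain ⟨r', D', hr', hD', hb'⟩ := C'.exists_bv hr.mx hr.my hflat
  obtain ⟨e1, e2⟩ := hb.unique hr.mx hr.my hb'
  have hq : 0 < D s / (W - r s) := by rw [e1, e2]; exact div_pos hD' (by linarith)
  refine ⟨hq, ?_⟩
  obtain ⟨K1, hK1, hw⟩ := within hpz hB2 hSeq (P.refine hr.hI hr.hK) hr.mx hr.my C'
  -- `K1 = K`
  obtain ⟨r1, D1, hr1, hD1, hb1⟩ := C.exists_bv hx hy hn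
  obtain ⟨g1, hg1, hG1⟩ := hB2 P x y hx hy n hn
  have a1 := hK n hn r1 D1 g1 hb1 hG1
  have a2 := hw _ (Pool.Agent.H48.Q1.flatV_ref hr.hI hr.hK hn) r1 D1 g1 (hb1.refine hr)
    (IsG.refine hG1 hr)
  have hq1 : 0 < (D1 / (W - r1)) ^ (1 / 3 : ℝ) :=
    Real.rpow_pos_of_pos (div_pos hD1 (by linarith)) _
  have hKK : K1 = K := by
    rw [a1] at a2
    exact (mul_right_cancel₀ hq1.ne' a2).symm
  obtain ⟨g, hg, hG⟩ := hB2 _ x' y' hr.mx hr.my n' hflat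
  have a3 := hw n' hflat (r s) (D s) g hb hG
  rw [hKK] at a3
  intro R X Y hA
  obtain ⟨X', Y', hA', hev⟩ := hApp R X Y hA
  have := hG R X' Y' hA'
  rw [a3] at this
  refine this.congr' ?_
  filter_upwards [hev] with j hj
  rw [hj]

/-- The constants of two polygons with the same direction at the pole agree. -/
theorem const_le {pz : ℝ → ℝ} (hpz : StPz pz) (hB2 : StB2 pz) (hSeq : StSeq) (P P' : PType)
    {x' y' : ℤ → ℝ} {ψ' : ℂ → ℂ} {W' : ℝ} (hx : StrictMono x) (hy : StrictMono y)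
    (hx' : StrictMono x') (hy' : StrictMono y') (C : Chart P x y ψ W) (C' : Chart P' x' y' ψ' W')
    (h0 : Flat0 P) (h0' : Flat0 P') (hd : ((P.side 0).2 - (P'.side 0).2) % 4 = 0) {n n' : ℕ}
    (hn : FlatV P n) (hn' : FlatV P' n') {K K' : ℝ} (hKpos' : 0 < K')
    (hK : ∀ n, FlatV P n → ∀ r D g : ℝ, BV P x y ψ n r D →
      IsG pz P x y n g → g = K * (D / (W - r)) ^ (1 / 3 : ℝ))
    (hK' : ∀ n, FlatV P' n → ∀ r D g : ℝ, BV P' x' y' ψ' n r D →
      IsG pz P' x' y' n g → g = K' * (D / (W' - r)) ^ (1 / 3 : ℝ)) : K = K' := by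
  obtain ⟨ρ, q, hρ, hq, h1⟩ := near_pole hpz hB2 hSeq P hx hy C h0 hn hK
  obtain ⟨ρ', q', hρ', hq', h1'⟩ := near_pole hpz hB2 hSeq P' hx' hy' C' h0' hn' hK'
  obtain ⟨X, Y, hA⟩ := exists_app1 hx hy
  obtain ⟨X', Y', hA'⟩ := exists_app1 hx' hy'
  have hR := hA.app.R_top
  -- the estimate for every `ε`
  have key : ∀ ε > 0, |K / K' - 1| ≤ ε := by
    intro ε hε
    obtain ⟨σ, hσ, hB⟩ := H29.Q1.stB1a P P' x y x' y' hx hy hx' hy' hd (by
      unfold Flat0 at h0 h0'; omega) ε hε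
    have hB := hB _ X Y X' Y' hA hA'
    -- fixed `s`
    have hs : ∀ s : ℝ, 0 < s → s < min σ (min ρ ρ') →
        |K * (q s) ^ (1 / 3 : ℝ) / (K' * (q' s) ^ (1 / 3 : ℝ)) - 1| ≤ ε := by
      intro s hs hs'
      have s1 : s < σ := hs'.trans_le (min_le_left _ _)
      have s2 : s < ρ := hs'.trans_le ((min_le_right _ _).trans (min_le_left _ _))
      have s3 : s < ρ' := hs'.trans_le ((min_le_right _ _).trans (min_le_right _ _))
      obtain ⟨p1, t1⟩ := h1 s hs s2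
      obtain ⟨p2, t2⟩ := h1' s hs s3
      have t1 := t1 _ X Y hA
      have t2 := t2 _ X' Y' hA'
      have hne : K' * (q' s) ^ (1 / 3 : ℝ) ≠ 0 :=
        (mul_pos hKpos' (Real.rpow_pos_of_pos p2 _)).ne'
      have t3 := ((t1.div t2 hne).sub_const 1).abs
      refine le_of_tendsto t3 ?_
      filter_upwards [hB, hR.eventually_ge_atTop (1 / s), hR.eventually_gt_atTop 0] with j b1 b2 b3
      have b4 : 1 ≤ ⌊s * ((j : ℝ) + 1)⌋ := by
        rw [Int.le_floor]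
        rw [div_le_iff₀ hs] at b2
        push_cast
        linarith
      have b5 : ((⌊s * ((j : ℝ) + 1)⌋ : ℤ) : ℝ) ≤ σ * ((j : ℝ) + 1) :=
        (Int.floor_le _).trans (mul_le_mul_of_nonneg_right s1.le b3.le)
      have b6 := b1 _ b4 b5
      simp only [Pi.div_apply]
      rw [div_div_div_cancel_right₀ (hpz.1 _).ne']
      exact b6
    -- `s → 0`
    have hlim : Tendsto (fun s => |K * (q s) ^ (1 / 3 : ℝ) / (K' * (q' s) ^ (1 / 3 : ℝ)) - 1|)
        (𝓝[>] 0) (𝓝 |K / K' - 1|) := by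
      have l1 : Tendsto (fun s => (s * q s) / (s * q' s)) (𝓝[>] 0) (𝓝 (1 / 1)) :=
        hq.div hq' one_ne_zero
      rw [div_one] at l1
      have l2 : Tendsto (fun s => ((s * q s) / (s * q' s)) ^ (1 / 3 : ℝ)) (𝓝[>] 0)
          (𝓝 ((1 : ℝ) ^ (1 / 3 : ℝ))) := l1.rpow_const (Or.inl one_ne_zero)
      rw [Real.one_rpow] at l2
      have l3 := ((l2.const_mul (K / K')).sub_const 1).abs
      rw [mul_one] at l3
      refine l3.congr' ?_
      have e1 : ∀ᶠ s : ℝ in 𝓝[>] 0, s < min ρ ρ' :=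
        (eventually_lt_nhds (lt_min hρ hρ')).filter_mono nhdsWithin_le_nhds
      filter_upwards [e1, self_mem_nhdsWithin] with s hs hs0
      have hs0 : 0 < s := hs0
      have p1 := (h1 s hs0 (hs.trans_le (min_le_left _ _))).1
      have p2 := (h1' s hs0 (hs.trans_le (min_le_right _ _))).1
      rw [mul_div_mul_left _ _ hs0.ne', Real.div_rpow p1.le p2.le, div_mul_div_comm]
    refine le_of_tendsto hlim ?_
    have e1 : ∀ᶠ s : ℝ in 𝓝[>] 0, s < min σ (min ρ ρ') :=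
      (eventually_lt_nhds (lt_min hσ (lt_min hρ hρ'))).filter_mono nhdsWithin_le_nhds
    filter_upwards [e1, self_mem_nhdsWithin] with s hs' hs0
    exact hs s hs0 hs'
  have h2 : |K / K' - 1| ≤ 0 := le_of_forall_pos_le_add (fun ε hε => by linarith [key ε hε])
  have h3 : K / K' - 1 = 0 := abs_eq_zero.1 (le_antisymm h2 (abs_nonneg _))
  have h4 : K / K' = 1 := by linarith
  rwa [div_eq_one_iff_eq hKpos'.ne'] at h4

/-- **The explicit form of the one-point function.** -/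
def StExp (pz : ℝ → ℝ) : Prop := ∀ k : ℤ, ∃ C : ℝ, 0 < C ∧
  ∀ (P : PType) (x y : ℤ → ℝ) (ψ : ℂ → ℂ) (W : ℝ), StrictMono x → StrictMono y →
    (P.side 0).2 % 4 = k % 4 → (P.side (P.N - 1)).2 % 4 = k % 4 → Chart P x y ψ W →
    ∀ n, FlatV P n → ∃ r D : ℝ, r < W ∧ 0 < D ∧ BV P x y ψ n r D ∧
      IsG pz P x y n (C * (D / (W - r)) ^ (1 / 3 : ℝ))

/-- **J12.** -/
theorem stExp {pz : ℝ → ℝ} (hpz : StPz pz) (hB2 : StB2 pz) (hSeq : StSeq) : StExp pz := by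
  intro k
  by_cases hex : ∃ (P : PType) (x y : ℤ → ℝ) (ψ : ℂ → ℂ) (W : ℝ) (n : ℕ), StrictMono x ∧
      StrictMono y ∧ (P.side 0).2 % 4 = k % 4 ∧ (P.side (P.N - 1)).2 % 4 = k % 4 ∧
      Chart P x y ψ W ∧ FlatV P n
  swap
  · refine ⟨1, one_pos, ?_⟩
    intro P x y ψ W hx hy h1 h2 hC n hn
    exact absurd ⟨P, x, y, ψ, W, n, hx, hy, h1, h2, hC, hn⟩ hex
  obtain ⟨P0, x0, y0, ψ0, W0, n0, hx0, hy0, hk1, hk2, C0, hn0⟩ := hex
  obtain ⟨K0, hK0, hw0⟩ := within hpz hB2 hSeq P0 hx0 hy0 C0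
  refine ⟨K0, hK0, ?_⟩
  intro P x y ψ W hx hy h1 h2 C n hn
  obtain ⟨K, -, hw⟩ := within hpz hB2 hSeq P hx hy C
  have hKK : K = K0 := const_le hpz hB2 hSeq P P0 hx hy hx0 hy0 C C0 (by unfold Flat0; omega)
    (by unfold Flat0; omega) (by omega) hn hn0 hK0 hw hw0
  obtain ⟨r, D, hr, hD, hb⟩ := C.exists_bv hx hy hn
  obtain ⟨g, hg, hG⟩ := hB2 P x y hx hy n hn
  refine ⟨r, D, hr, hD, hb, ?_⟩
  have := hw n hn r D g hb hG
  rw [hKK] at this
  rw [← this]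
  exact hG

end Pool.Agent.H29.M7
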