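import Mathlib
import Pool.Agent.H29.M7.Exp
import Pool.Agent.Q1.M4.Main

set_option autoImplicit false
open Finset Filter Topology

/-! Module M7 of Q1, J12: the data of M4 (`StSeq`) from the a priori bound and the holomorphy of the
limits. -/

namespace Pool.Agent.H29.M7

open Pool.Agent.Q1.M4
open Pool.Agent.H75.Perc hiding WL CT hh ph
open Pool.Agent.H75.TwoArm Pool.Agent.H99.NC Pool.Agent.Q1.Dob
open Pool.Agent.Q1.M5 (StA App)
open Pool.Agent.Q1 (Env ph_norm AP)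

/-- `StSeq` from the a priori bound and the holomorphy of the limits. -/
theorem stSeq_of {K : Env → Prop} (hAP : AP K)
    (hfr : ∀ Z, K Z → ∀ a b c d : ℤ, ∀ ω1 ⊆ Z.E \ Bx a b c d, K (Z.freeze (Bx a b c d) ω1))
    (hK : ∀ (P : PType) (X Y : ℤ → ℤ) (hX : StrictMono X) (hY : StrictMono Y), K (dob P hX hY))
    (hH : HolDob) : StSeq := by
  intro P x y hx hy R X Y hA
  have key : ∀ j, ∃ (E : Env) (Hv Hf : ℤ × ℤ → ℂ), StrictMono (X j) → StrictMono (Y j) →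
      PH K P (X j) (Y j) E Hv Hf (Q1.ph (-1)) 2 ∧ IsPrim P (X j) (Y j) Hv Hf ∧
      ∃ c0, PV P (X j) (Y j) E c0 := by
    intro j
    by_cases h : StrictMono (X j) ∧ StrictMono (Y j)
    · obtain ⟨Hv, Hf, hP⟩ := exists_PH (K := K) P h.1 h.2 (hK P _ _ h.1 h.2)
      exact ⟨_, Hv, Hf, fun hX hY => ⟨hP, ⟨hX, hY, hP.prim⟩, _, pv_dob P h.1 h.2⟩⟩
    · exact ⟨dob P (X := fun i => i) (Y := fun i => i) strictMono_id strictMono_id, 0, 0,
        fun hX hY => absurd ⟨hX, hY⟩ h⟩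
  choose Ev Hv Hf hk using key
  have hX : ∀ᶠ j in atTop, StrictMono (X j) ∧ StrictMono (Y j) := hA.mono
  have hPH : ∀ᶠ j in atTop, PH K P (X j) (Y j) (Ev j) (Hv j) (Hf j) (Q1.ph (-1)) 2 :=
    hX.mono fun j hj => (hk j hj.1 hj.2).1
  exact seqData_of (K := K) hx hy hA (u := Q1.ph (-1)) (Q1.ph_norm _) (C0 := 2) hPH
    (pReg_of hAP hfr hx hy hA hPH (hX.mono fun j hj => (hk j hj.1 hj.2).2.2))
    (hH P x y hx hy R X Y hA Hv Hf (hX.mono fun j hj => (hk j hj.1 hj.2).2.1))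

end Pool.Agent.H29.M7
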